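import Pool.Agent.H621.RK.Tate
import Pool.Agent.H621.RK.Tor
import Pool.Agent.H621.RK.Tex

set_option autoImplicit false
set_option linter.unusedSectionVars false

/-!
# Lie algebras of pairs
-/

open Module TensorProduct Matrix Polynomial

noncomputable section

namespace Pool.Agent.H621.RM

open Pool.Agent.Y102 Pool.Agent.W516.DR Pool.Agent.H204R3.GP Pool.Agent.W516.KC
  Pool.Agent.H204R3.SP Pool.Agent.TH119.MX Pool.Agent.R917 Pool.Agent.R917.DT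
  Pool.Agent.R917.EC Pool.Agent.H621.BC Pool.Agent.R917.OM

open Pool.Agent.H621.RK (R2 cj RealM rm_br scal_br imag_count exists_W exists_t toAdd
  toAdd_apply Prj gen BTk exists_sigma rm_real exists_rm comp_sum NAc NAc_of_curve cjF)

section gen

variable {r K : ℕ} {I : Type} [Fintype I] [DecidableEq I]

/-- A Lie algebra of pairs of matrices, block triangular in the first component, defined over the
rational numbers, and closed under the replicas of pairs with diagonalizable second component. -/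
structure LP (lev : Fin r → Fin K) (𝔭 : Submodule ℂ (R2 r I)) : Prop where
  bt : ∀ z ∈ 𝔭, BT lev z.1
  br : ∀ z ∈ 𝔭, ∀ w ∈ 𝔭, z * w - w * z ∈ 𝔭
  comp : ∀ z ∈ 𝔭, ∀ f : ℂ →ₗ[QQ] ℂ, ((z.1.map f, z.2.map f) : R2 r I) ∈ 𝔭
  rep : ∀ (x : Matrix (Fin r) (Fin r) ℂ) (y : Matrix I I ℂ) (sx sy : Finset ℂ) (N : ℕ),
    aeval x (Lagrange.nodal sx id ^ N) = 0 → aeval y (Lagrange.nodal sy id) = 0 →
    ((x, y) : R2 r I) ∈ 𝔭 → ∀ (σ : ℂ →+ ℂ) (Q : ℂ[X]), (∀ a ∈ sy, Q.eval a = σ a) →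
    ∃ x' : Matrix (Fin r) (Fin r) ℂ, ((x', aeval y Q) : R2 r I) ∈ 𝔭 ∧
      ((∀ a ∈ sx, σ a = 0) → x' = 0)

variable {lev : Fin r → Fin K} {𝔭 : Submodule ℂ (R2 r I)}

/-- Real lifts. -/
theorem real_lift (hL : LP lev 𝔭) {x : Matrix (Fin r) (Fin r) ℂ} {y : Matrix I I ℂ}
    (hz : ((x, y) : R2 r I) ∈ 𝔭) (hy : RealM y) :
    ∃ x' : Matrix (Fin r) (Fin r) ℂ, RealM x' ∧ ((x', y) : R2 r I) ∈ 𝔭 := by
  have h1 := hL.comp _ hz cjF
  have h2 := 𝔭.smul_mem (2⁻¹ : ℂ) (𝔭.add_mem hz h1)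
  refine ⟨(2⁻¹ : ℂ) • (x + x.map cjF), fun i j => ?_, ?_⟩
  · rw [Matrix.smul_apply, Matrix.add_apply, Matrix.map_apply, smul_eq_mul, map_mul, map_add]
    change cj 2⁻¹ * (cj (x i j) + cj (cj (x i j))) = 2⁻¹ * (x i j + cj (x i j))
    rw [Complex.conj_conj, map_inv₀, Complex.conj_ofNat, add_comm]
  · convert h2 using 1
    refine Prod.ext rfl ?_
    change y = (2⁻¹ : ℂ) • (y + y.map cjF)
    have h3 : y.map cjF = y := by
      ext i j
      exact hy i j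
    rw [h3, ← two_smul ℂ y, smul_smul]
    norm_num

/-- **Compact tori.** -/
theorem torus (hL : LP lev 𝔭) {n : ℕ} {ι : Type} [Fintype ι] [DecidableEq ι] {P : ι → Matrix I I ℂ} (hP : Prj P)
    (w : ι → Fin n → ℤ)
    (hl : ∀ j, ∃ x, RealM x ∧ ((x, gen P w j) : R2 r I) ∈ 𝔭) :
    ∃ W : Submodule ℚ (Fin n → ℚ),
      n ≤ finrank ℚ W + ∑ l : Fin K, Fintype.card {i // lev i = l} / 2 ∧
      ∀ c ∈ W, ((0, ∑ a, (∑ j, (w a j : ℂ) * (c j : ℂ)) • P a) : R2 r I) ∈ 𝔭 := by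
  classical
  obtain ⟨t, ht⟩ := exists_t n
  choose x hx hz using hl
  let x₀ : Matrix (Fin r) (Fin r) ℂ := ∑ j, (t j : ℂ) • x j
  let m : ι → ℂ := fun a => ∑ j, (t j : ℂ) * ((w a j : ℂ) * Complex.I)
  have hy : ((x₀, ∑ a, m a • P a) : R2 r I) ∈ 𝔭 := by
    have h1 : ((x₀, ∑ a, m a • P a) : R2 r I) = ∑ j, (t j : ℂ) • ((x j, gen P w j) : R2 r I) := by
      refine Prod.ext ?_ ?_
      · rw [Prod.fst_sum]
        rfl
      · rw [Prod.snd_sum]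
        change ∑ a, m a • P a = ∑ j, (t j : ℂ) • gen P w j
        unfold gen
        simp only [Finset.smul_sum, smul_smul]
        rw [Finset.sum_comm]
        exact Finset.sum_congr rfl fun a _ => Finset.sum_smul
    rw [h1]
    exact Submodule.sum_mem _ fun j _ => 𝔭.smul_mem _ (hz j)
  have hx₀ : RealM x₀ := by
    intro i k
    change cj ((∑ j, (t j : ℂ) • x j) i k) = (∑ j, (t j : ℂ) • x j) i k
    rw [Matrix.sum_apply, map_sum]
    refine Finset.sum_congr rfl fun j _ => ?_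
    rw [Matrix.smul_apply, smul_eq_mul, map_mul, hx j, Complex.conj_ofReal]
  obtain ⟨s, T, hs, hT, hsT⟩ := imag_count (hL.bt _ hy) hx₀
  let φ : (Fin n → ℚ) →ₗ[ℚ] ℂ :=
    { toFun := fun q => ∑ j, (q j : ℂ) * ((t j : ℂ) * Complex.I)
      map_add' := fun q q' => by
        rw [← Finset.sum_add_distrib]
        exact Finset.sum_congr rfl fun j _ => by
          rw [Pi.add_apply, Rat.cast_add, add_mul]
      map_smul' := fun a q => by
        rw [RingHom.id_apply, Finset.smul_sum]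
        exact Finset.sum_congr rfl fun j _ => by
          rw [Pi.smul_apply, smul_eq_mul, Rat.cast_mul, mul_assoc, Rat.smul_def] }
  have hφ_def : ∀ q, φ q = ∑ j, (q j : ℂ) * ((t j : ℂ) * Complex.I) := fun q => rfl
  have hφr : ∀ q, φ q = ((∑ j, (q j : ℝ) * t j : ℝ) : ℂ) * Complex.I := by
    intro q
    rw [hφ_def]
    push_cast
    rw [Finset.sum_mul]
    exact Finset.sum_congr rfl fun j _ => by ring
  have hφ : Function.Injective φ := by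
    rw [← LinearMap.ker_eq_bot, LinearMap.ker_eq_bot']
    intro q hq
    rw [hφr] at hq
    have h1 : (∑ j, (q j : ℝ) * t j : ℝ) = 0 := by
      have h2 := (mul_eq_zero.1 hq).resolve_right Complex.I_ne_zero
      exact_mod_cast h2
    funext j
    refine Fintype.linearIndependent_iff.1 ht q ?_ j
    rw [← h1]
    exact Finset.sum_congr rfl fun j _ => by rw [Rat.smul_def]
  obtain ⟨W, hW, hW'⟩ := exists_W φ hφ (Submodule.span ℚ (s : Set ℂ)) T fun q hq => by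
    refine hsT _ hq ?_
    rw [hφr, map_mul, Complex.conj_ofReal, Complex.conj_I, mul_neg]
  refine ⟨W, hW.trans (Nat.add_le_add_left hT _), fun c hc => ?_⟩
  obtain ⟨σ, h1, h2⟩ := hW' c hc
  have h3 : ∀ a, σ (m a) = ∑ j, c j * w a j := by
    intro a
    have h4 : m a = φ (fun j => (w a j : ℚ)) := by
      rw [hφ_def]
      refine Finset.sum_congr rfl fun j _ => ?_
      rw [Rat.cast_intCast]
      ring
    rw [h4, h2]
  obtain ⟨x', h4, h5⟩ := hL.rep _ _ s _ _ hs (hP.nodal m) hy (toAdd σ)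
    (Lagrange.interpolate (Finset.univ.image m) id (fun b => toAdd σ b)) (fun a ha =>
      Lagrange.eval_interpolate_at_node (fun b => toAdd σ b) (Function.injective_id.injOn) ha)
  rw [h5 (fun a ha => by
    rw [toAdd_apply, h1 a (Submodule.subset_span ha), Rat.cast_zero]), hP.aeval] at h4
  convert h4 using 1
  refine Prod.ext rfl ?_
  change ∑ a, _ = ∑ a, _
  refine Finset.sum_congr rfl fun a _ => ?_
  congr 1
  have h6 : (Lagrange.interpolate (Finset.univ.image m) id (fun b => toAdd σ b)).eval (m a) =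
      toAdd σ (m a) := Lagrange.eval_interpolate_at_node (fun b => toAdd σ b)
        (Function.injective_id.injOn) (Finset.mem_image_of_mem m (Finset.mem_univ a))
  rw [h6, toAdd_apply, h3]
  push_cast
  exact Finset.sum_congr rfl fun j _ => by ring

end gen

variable {r K h : ℕ} {A : AbVar h} {lev : Fin r → Fin K}
  {𝔭 : Submodule ℂ (R2 r (Fin (2 * h)))}

/-- the lift exists -/
def Lif (𝔭 : Submodule ℂ (R2 r (Fin (2 * h)))) (y : Matrix (Fin (2 * h)) (Fin (2 * h)) ℂ) : Prop :=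
  ∃ x : Matrix (Fin r) (Fin r) ℂ, ((x, y) : R2 r (Fin (2 * h))) ∈ 𝔭

/-- A Lie algebra of pairs which contains the logarithmic derivatives of the periods. -/
structure PtA (A : AbVar h) (lev : Fin r → Fin K) (𝔭 : Submodule ℂ (R2 r (Fin (2 * h)))) :
    Prop where
  lp : LP lev 𝔭
  der : ∀ (D : Derivation QBar ℂ ℂ) (lam : ℂ →ₗ[ℚ] ℚ),
    Lif 𝔭 (rm (Pool.Agent.W516.DR.cmpE lam (XX A.basis D)))

theorem Lif.add {y z : Matrix (Fin (2 * h)) (Fin (2 * h)) ℂ} (hy : Lif 𝔭 y)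
    (hz : Lif 𝔭 z) : Lif 𝔭 (y + z) := by
  obtain ⟨x, hx⟩ := hy
  obtain ⟨x', hx'⟩ := hz
  exact ⟨x + x', 𝔭.add_mem hx hx'⟩

theorem Lif.smul {y : Matrix (Fin (2 * h)) (Fin (2 * h)) ℂ} (a : ℂ) (hy : Lif 𝔭 y) :
    Lif 𝔭 (a • y) := by
  obtain ⟨x, hx⟩ := hy
  exact ⟨a • x, 𝔭.smul_mem a hx⟩

theorem Lif.zero : Lif 𝔭 (0 : Matrix (Fin (2 * h)) (Fin (2 * h)) ℂ) :=
  ⟨0, 𝔭.zero_mem⟩

theorem Lif.br (hL : LP lev 𝔭) {y z : Matrix (Fin (2 * h)) (Fin (2 * h)) ℂ} (hy : Lif 𝔭 y)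
    (hz : Lif 𝔭 z) : Lif 𝔭 (y * z - z * y) := by
  obtain ⟨x, hx⟩ := hy
  obtain ⟨x', hx'⟩ := hz
  exact ⟨x * x' - x' * x, hL.br _ hx _ hx'⟩

theorem Lif.comp (hL : LP lev 𝔭) {y : Matrix (Fin (2 * h)) (Fin (2 * h)) ℂ}
    (hy : Lif 𝔭 y) (lam : ℂ →ₗ[ℚ] ℚ) : Lif 𝔭 (y.map (lamF lam)) := by
  obtain ⟨x, hx⟩ := hy
  exact ⟨_, hL.comp _ hx (lamF lam)⟩

theorem Lif.rep (hL : LP lev 𝔭) {y : Matrix (Fin (2 * h)) (Fin (2 * h)) ℂ} {sy : Finset ℂ}
    (hy : aeval y (Lagrange.nodal sy id) = 0) (hz : Lif 𝔭 y) (σ : ℂ →+ ℂ) {Q : ℂ[X]}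
    (hQ : ∀ a ∈ sy, Q.eval a = σ a) : Lif 𝔭 (aeval y Q) := by
  obtain ⟨x, hx⟩ := hz
  obtain ⟨s, hs⟩ := Pool.Agent.H621.RK.exists_ann x
  obtain ⟨x', h1, -⟩ := hL.rep _ _ s _ _ hs hy hx σ Q hQ
  exact ⟨x', h1⟩

variable (A 𝔭) in
/-- the elements with a lift, up to a scalar -/
def ha : Submodule ℚ (Module.End ℚ A.H1) where
  carrier := {Y | Y ∈ A.NA ∧ ∃ a : ℚ, Lif 𝔭 (rm Y + (a : ℂ) • 1)}
  zero_mem' := ⟨A.NA.zero_mem, 0, by
    rw [rm_zero, Rat.cast_zero, zero_smul, add_zero]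
    exact Lif.zero⟩
  add_mem' := by
    rintro X Y ⟨hX, a, ha⟩ ⟨hY, b, hb⟩
    refine ⟨A.NA.add_mem hX hY, a + b, ?_⟩
    have h1 := ha.add hb
    convert h1 using 1
    rw [rm_add, Rat.cast_add, add_smul]
    abel
  smul_mem' := by
    rintro t X ⟨hX, a, ha⟩
    refine ⟨A.NA.smul_mem t hX, t * a, ?_⟩
    have h1 := ha.smul (t : ℂ)
    convert h1 using 1
    rw [rm_smul, Rat.cast_mul, smul_add, smul_smul]

variable (A 𝔭) in
/-- the elements with a lift -/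
def hb : Submodule ℚ (Module.End ℚ A.H1) where
  carrier := {Y | Y ∈ A.NA ∧ Lif 𝔭 (rm Y)}
  zero_mem' := ⟨A.NA.zero_mem, by
    rw [rm_zero]
    exact Lif.zero⟩
  add_mem' := by
    rintro X Y ⟨hX, ha⟩ ⟨hY, hb⟩
    refine ⟨A.NA.add_mem hX hY, ?_⟩
    rw [rm_add]
    exact ha.add hb
  smul_mem' := by
    rintro t X ⟨hX, ha⟩
    refine ⟨A.NA.smul_mem t hX, ?_⟩
    rw [rm_smul]
    exact ha.smul _

variable (A 𝔭) in
/-- the elements `Y` such that `(0, Y)` is in the Lie algebra -/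
def nn : Submodule ℚ (Module.End ℚ A.H1) where
  carrier := {Y | Y ∈ A.NA ∧ ((0, rm Y) : R2 r (Fin (2 * h))) ∈ 𝔭}
  zero_mem' := ⟨A.NA.zero_mem, by
    rw [rm_zero]
    exact 𝔭.zero_mem⟩
  add_mem' := by
    rintro X Y ⟨hX, ha⟩ ⟨hY, hb⟩
    refine ⟨A.NA.add_mem hX hY, ?_⟩
    rw [rm_add]
    have h1 := 𝔭.add_mem ha hb
    rwa [Prod.mk_add_mk, add_zero] at h1
  smul_mem' := by
    rintro t X ⟨hX, ha⟩
    refine ⟨A.NA.smul_mem t hX, ?_⟩
    rw [rm_smul]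
    have h1 := 𝔭.smul_mem (t : ℂ) ha
    rwa [Prod.smul_mk, smul_zero] at h1

theorem ha_br (hL : LP lev 𝔭) {X Y : Module.End ℚ A.H1} (hX : X ∈ ha A 𝔭) (hY : Y ∈ ha A 𝔭) :
    X * Y - Y * X ∈ hb A 𝔭 := by
  obtain ⟨h1, a, h2⟩ := hX
  obtain ⟨h3, b, h4⟩ := hY
  refine ⟨A.NA_bracket h1 h3, ?_⟩
  have h5 := Lif.br hL h4 h2
  rw [scal_br] at h5
  rw [rm_br]
  exact h5

theorem hb_le : hb A 𝔭 ≤ ha A 𝔭 := fun X hX => ⟨hX.1, 0, by
  rw [Rat.cast_zero, zero_smul, add_zero]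
  exact hX.2⟩

theorem cmpE_lift (hpt : PtA A lev 𝔭) (D : Derivation QBar ℂ ℂ) (lam : ℂ →ₗ[ℚ] ℚ) :
    Lif 𝔭 (rm (Pool.Agent.W516.DR.cmpE lam (XX A.basis D))) := hpt.der D lam

theorem X0_lift (hpt : PtA A lev 𝔭) (D : Derivation QBar ℂ ℂ) (lam : ℂ →ₗ[ℚ] ℚ) :
    X0 A.basis tau D lam ∈ A.NA ∧
      Lif 𝔭 (rm (X0 A.basis tau D lam) + ((lam (D tau / (2 * tau)) : ℚ) : ℂ) • 1) := by
  refine ⟨A.LA_le_NA ?_, ?_⟩
  · rw [AbVar.LA_eq]
    exact X0_mem A.basis AbVar.tau_ne D lam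
  · have h1 := cmpE_lift hpt D lam
    rw [← X0_eq D lam, rm_add, rm_smul, rm_one] at h1
    exact h1

theorem ha_full (hpt : PtA A lev 𝔭) : A.Full (ha A 𝔭) :=
  full_of_X0 A (fun _ hX => hX.1) (fun _ hX _ hY => hb_le (ha_br hpt.lp hX hY)) fun D lam =>
    ⟨(X0_lift hpt D lam).1, _, (X0_lift hpt D lam).2⟩

theorem der_ha (hL : LP lev 𝔭) {X : Module.End ℚ A.H1} (hX : X ∈ der (ha A 𝔭)) : X ∈ hb A 𝔭 := by
  have h1 : der (ha A 𝔭) ≤ hb A 𝔭 := by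
    unfold der
    rw [Submodule.span_le]
    rintro _ ⟨P, hP, Q, hQ, rfl⟩
    exact ha_br hL hP hQ
  exact h1 hX

/-- **The weight.** -/
theorem wt_lift (hpt : PtA A lev 𝔭) :
    Lif 𝔭 (1 : Matrix (Fin (2 * h)) (Fin (2 * h)) ℂ) := by
  classical
  have hf := ha_full hpt
  obtain ⟨D, lam, hne⟩ := exists_der
  obtain ⟨a, haa⟩ : ∃ a : ℚ, a = lam (D tau / (2 * tau)) := ⟨_, rfl⟩
  rw [← haa] at hne
  obtain ⟨h1, h2⟩ := X0_lift hpt D lam
  rw [← haa] at h2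
  obtain ⟨Z, hZ, e, he, h3, h4⟩ := hf.dec (X := X0 A.basis tau D lam) ⟨h1, a, h2⟩
  have h5 := (der_ha hpt.lp he).2
  have h6 : Lif 𝔭 (rm Z + (a : ℂ) • 1) := by
    have h7 := h2.add (h5.smul (-1))
    convert h7 using 1
    rw [h3, rm_add]
    module
  have hc : ∀ Y ∈ A.NA, Z * Y = Y * Z := fun Y hY => (hf.comm Z (fun Y hY => (h4 Y hY).symm)
    Y hY).symm
  obtain ⟨t, ht, hN⟩ := imag_roots (hf.le hZ) hc
  let sy : Finset ℂ := t.image fun b => b + (a : ℂ)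
  have hy : aeval (rm Z + (a : ℂ) • (1 : Matrix (Fin (2 * h)) (Fin (2 * h)) ℂ))
      (Lagrange.nodal sy id) = 0 := by
    rw [aeval_shift]
    have h8 : aeval (rm Z) ((Lagrange.nodal sy id).comp (X + C (a : ℂ))) =
        aeval (rm Z) (0 : ℂ[X]) := by
      refine aeval_congr hN fun b hb => ?_
      rw [eval_comp, eval_add, eval_X, eval_C, eval_zero]
      exact Lagrange.eval_nodal_at_node (v := id) (i := b + (a : ℂ))
        (Finset.mem_image.2 ⟨b, hb, rfl⟩)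
    rw [h8, map_zero]
  have h8 := Lif.rep hpt.lp hy h6 reA (Q := C (a : ℂ)) fun b hb => by
    obtain ⟨c, hc, rfl⟩ := Finset.mem_image.1 hb
    rw [eval_C, reA_apply, Complex.add_re, ht c hc, zero_add, Complex.ratCast_re,
      Complex.ofReal_ratCast]
  rw [aeval_C, Algebra.algebraMap_eq_smul_one] at h8
  have h9 := h8.smul ((a : ℂ)⁻¹)
  rwa [smul_smul, inv_mul_cancel₀ (by exact_mod_cast hne), one_smul] at h9

theorem hb_eq (hpt : PtA A lev 𝔭) : hb A 𝔭 = ha A 𝔭 := by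
  refine le_antisymm hb_le fun X hX => ⟨hX.1, ?_⟩
  obtain ⟨-, a, h1⟩ := hX
  have h2 := h1.add ((wt_lift hpt).smul (-(a : ℂ)))
  rwa [neg_smul, add_neg_cancel_right] at h2

theorem hb_full (hpt : PtA A lev 𝔭) : A.Full (hb A 𝔭) := by
  rw [hb_eq hpt]
  exact ha_full hpt

theorem hb_RC (hpt : PtA A lev 𝔭) : RC (hb A 𝔭) := by
  intro Y hY s hs σ Q hQ lam X' hX'
  refine ⟨NA_RC Y hY.1 s hs σ Q hQ lam X' hX', ?_⟩
  rw [hX']
  exact Lif.comp hpt.lp (Lif.rep hpt.lp hs hY.2 σ hQ) lam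

/-- **The lifts.** -/
theorem lift_NA (hdet : Det A) (hpt : PtA A lev 𝔭) {Y : Module.End ℚ A.H1} (hY : Y ∈ A.NA) :
    Lif 𝔭 (rm Y) :=
  (hdet _ (hb_full hpt) (hb_RC hpt) hY).2

/-! ### The ideal -/

theorem nn_ideal (hpt : PtA A lev 𝔭) {X Y : Module.End ℚ A.H1} (hX : X ∈ hb A 𝔭)
    (hY : Y ∈ nn A 𝔭) : X * Y - Y * X ∈ nn A 𝔭 := by
  obtain ⟨h1, x, h2⟩ := hX
  refine ⟨A.NA_bracket h1 hY.1, ?_⟩
  have h3 := hpt.lp.br _ hY.2 _ h2
  convert h3 using 1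
  refine Prod.ext ?_ ?_
  · change 0 = 0 * x - x * 0
    rw [zero_mul, mul_zero, sub_zero]
  · exact rm_br X Y

theorem nn_RC (hpt : PtA A lev 𝔭) : RC (nn A 𝔭) := by
  intro Y hY s hs σ Q hQ lam X' hX'
  refine ⟨NA_RC Y hY.1 s hs σ Q hQ lam X' hX', ?_⟩
  have h0 : aeval (0 : Matrix (Fin r) (Fin r) ℂ)
      (Lagrange.nodal ({0} : Finset ℂ) (id : ℂ → ℂ) ^ 1) = 0 := by
    have e1 : Lagrange.nodal ({0} : Finset ℂ) (id : ℂ → ℂ) = X := by
      unfold Lagrange.nodal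
      rw [Finset.prod_singleton, id, C_0, sub_zero]
    rw [pow_one, e1, aeval_X]
  obtain ⟨x', h1, h2⟩ := hpt.lp.rep _ _ _ _ _ h0 hs hY.2 σ Q hQ
  rw [h2 (fun a ha => by
    rw [Finset.mem_singleton.1 ha]
    exact map_zero σ)] at h1
  have h3 := hpt.lp.comp _ h1 (lamF lam)
  rw [hX']
  convert h3 using 1
  refine Prod.ext ?_ rfl
  ext i j
  exact (map_zero (lamF lam)).symm

theorem nn_le_hb : nn A 𝔭 ≤ hb A 𝔭 := fun _ hX => ⟨hX.1, 0, hX.2⟩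

/-- lifts in the steps of the filtration -/
theorem der_lift (hpt : PtA A lev 𝔭) (hinj : Function.Injective lev) (k : ℕ) :
    ∀ Y ∈ der (hb A 𝔭), ∃ x : Matrix (Fin r) (Fin r) ℂ, BTk lev k x ∧
      ((x, rm Y) : R2 r (Fin (2 * h))) ∈ 𝔭 := by
  have hf := hb_full hpt
  induction k with
  | zero =>
    intro Y hY
    obtain ⟨-, x, hx⟩ := hf.der_le hY
    exact ⟨x, BTk.zero_iff.2 (hpt.lp.bt _ hx), hx⟩
  | succ k ih =>
    intro Y hY
    have h1 := hf.perfect hY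
    clear hY
    induction h1 using Submodule.span_induction with
    | mem Y h2 =>
      obtain ⟨X, hX, Z, hZ, rfl⟩ := h2
      obtain ⟨x, hx, hx'⟩ := ih X hX
      obtain ⟨z, hz, hz'⟩ := ih Z hZ
      refine ⟨z * x - x * z, hz.br hinj hx, ?_⟩
      rw [rm_br]
      exact hpt.lp.br _ hz' _ hx'
    | zero =>
      refine ⟨0, BTk.zero, ?_⟩
      rw [rm_zero]
      exact 𝔭.zero_mem
    | add a b _ _ ha hb =>
      obtain ⟨x, hx, hx'⟩ := ha
      obtain ⟨y, hy, hy'⟩ := hb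
      refine ⟨x + y, hx.add hy, ?_⟩
      rw [rm_add]
      exact 𝔭.add_mem hx' hy'
    | smul c a _ ha =>
      obtain ⟨x, hx, hx'⟩ := ha
      refine ⟨(c : ℂ) • x, hx.smul _, ?_⟩
      rw [rm_smul]
      exact 𝔭.smul_mem _ hx'

theorem der_le_nn (hpt : PtA A lev 𝔭) (hinj : Function.Injective lev) :
    der (hb A 𝔭) ≤ nn A 𝔭 := by
  intro Y hY
  obtain ⟨x, hx, hx'⟩ := der_lift hpt hinj K Y hY
  rw [hx.eq_zero] at hx'
  exact ⟨(hb_full hpt).le ((hb_full hpt).der_le hY), hx'⟩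

/-- **Objects with graded pieces of rank one.** -/
theorem hb_le_nn (hpt : PtA A lev 𝔭) (h1 : ∀ l : Fin K, Fintype.card {i // lev i = l} ≤ 1) :
    hb A 𝔭 ≤ nn A 𝔭 := by
  classical
  have hinj : Function.Injective lev := by
    intro i j hij
    have h2 := Fintype.card_le_one_iff.1 (h1 (lev j)) ⟨i, hij⟩ ⟨j, rfl⟩
    exact congrArg Subtype.val h2
  have hf := hb_full hpt
  intro X hX
  obtain ⟨Z, hZ, d, hd, rfl, hc⟩ := hf.dec hX
  refine (nn A 𝔭).add_mem ?_ (der_le_nn hpt hinj hd)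
  have hcNA : ∀ Y ∈ A.NA, Z * Y = Y * Z := fun Y hY => (hf.comm Z (fun Y hY => (hc Y hY).symm)
    Y hY).symm
  obtain ⟨t, ht, hN⟩ := imag_roots (hf.le hZ) hcNA
  obtain ⟨hZN, x, hx⟩ := hZ
  obtain ⟨x', hr, hx'⟩ := real_lift hpt.lp hx (rm_real Z)
  obtain ⟨s, T, hs, hT, hsT⟩ := imag_count (hpt.lp.bt _ hx') hr
  have hT0 : T = ∅ := by
    rw [← Finset.card_eq_zero]
    refine Nat.le_zero.1 (hT.trans (le_of_eq ?_))
    refine Finset.sum_eq_zero fun l _ => ?_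
    have := h1 l
    omega
  obtain ⟨σ, hσ1, hσ2⟩ := exists_sigma (Submodule.span ℚ (s : Set ℂ)) fun v hv hcv => by
    have h2 := hsT v hv hcv
    rw [hT0, Finset.coe_empty, Submodule.span_empty, Submodule.mem_bot] at h2
    exact h2
  obtain ⟨x'', h3, h4⟩ := hpt.lp.rep _ _ s _ _ hs hN hx' σ.toAddMonoidHom X fun a ha => by
    rw [eval_X]
    refine (hσ2 a ?_).symm
    apply Complex.ext
    · rw [Complex.conj_re, Complex.neg_re, ht a ha, neg_zero]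
    · rw [Complex.conj_im, Complex.neg_im]
  rw [h4 fun a ha => hσ1 a (Submodule.subset_span ha), aeval_X] at h3
  exact ⟨hZN, h3⟩

/-- the elements `X0` -/
theorem X0_hb (hpt : PtA A lev 𝔭) (D : Derivation QBar ℂ ℂ) (lam : ℂ →ₗ[ℚ] ℚ) :
    X0 A.basis tau D lam ∈ hb A 𝔭 := by
  rw [hb_eq hpt]
  exact ⟨(X0_lift hpt D lam).1, _, (X0_lift hpt D lam).2⟩

/-- The complex structure. -/
theorem J_hb (hpt : PtA A lev 𝔭) (hJ : DetJ A) (t : ℝ →ₗ[ℚ] ℚ) :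
    A.cmpE t AbVar.JJ ∈ hb A 𝔭 :=
  hJ (hb A 𝔭) (fun _ hX => hX.1) (fun X hX Y hY => by
    rw [hb_eq hpt] at hX hY
    exact ha_br hpt.lp hX hY) (X0_hb hpt) (hb_RC hpt) t

/-- Combinations of elements of the ideal. -/
theorem of_span {y : Matrix (Fin (2 * h)) (Fin (2 * h)) ℂ}
    (hy : y ∈ Submodule.span ℂ {Z | ∃ Y ∈ nn A 𝔭, Z = rm Y}) :
    ((0, y) : R2 r (Fin (2 * h))) ∈ 𝔭 := by
  induction hy using Submodule.span_induction with
  | mem Z hZ =>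
    obtain ⟨Y, hY, rfl⟩ := hZ
    exact hY.2
  | zero => exact 𝔭.zero_mem
  | add a b _ _ ha hb =>
    have h1 := 𝔭.add_mem ha hb
    rwa [Prod.mk_add_mk, add_zero] at h1
  | smul c a _ ha =>
    have h1 := 𝔭.smul_mem c ha
    rwa [Prod.smul_mk, smul_zero] at h1

end Pool.Agent.H621.RM
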