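import Pool.Agent.H621.RM.Ss

set_option autoImplicit false
set_option linter.unusedSectionVars false

/-!
# The unipotent part
-/

open Module TensorProduct Matrix Polynomial

noncomputable section

namespace Pool.Agent.H621.RM

open Pool.Agent.Y102 Pool.Agent.W516.DR Pool.Agent.H204R3.GP Pool.Agent.W516.KC
  Pool.Agent.H204R3.SP Pool.Agent.TH119.MX Pool.Agent.R917 Pool.Agent.R917.DT
  Pool.Agent.R917.EC Pool.Agent.H621.BC Pool.Agent.R917.OM Pool.Agent.R917.BX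

open Pool.Agent.H621.RK (R2 PP PP_br PP_comp bd bd_apply comp_sum stab_ss exp_PP)

variable {r K g n s : ℕ}

section gen

variable {A : AbVar g}

/-- the span of the images of the elements of the Lie algebra -/
def img (𝔫 : Submodule ℚ (Module.End ℚ A.H1)) : Submodule ℚ A.H1 :=
  Submodule.span ℚ {w | ∃ Y ∈ 𝔫, ∃ u, w = Y u}

theorem img_le {𝔫 : Submodule ℚ (Module.End ℚ A.H1)} {V : Submodule ℚ A.H1}
    (h : ∀ Y ∈ 𝔫, ∀ u, Y u ∈ V) : img 𝔫 ≤ V := by
  unfold img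
  rw [Submodule.span_le]
  rintro _ ⟨Y, hY, u, rfl⟩
  exact h Y hY u

/-- the invariants -/
def ivs (𝔫 : Submodule ℚ (Module.End ℚ A.H1)) : Submodule ℚ A.H1 where
  carrier := {w | ∀ Y ∈ 𝔫, Y w = 0}
  zero_mem' := fun Y _ => map_zero Y
  add_mem' := fun {a b} ha hb Y hY => by rw [map_add, ha Y hY, hb Y hY, add_zero]
  smul_mem' := fun c a ha Y hY => by rw [map_smul, ha Y hY, smul_zero]

theorem ivs_stable {𝔥 𝔫 : Submodule ℚ (Module.End ℚ A.H1)}
    (hid : ∀ X ∈ 𝔥, ∀ Y ∈ 𝔫, X * Y - Y * X ∈ 𝔫) : ∀ X ∈ 𝔥, ∀ v ∈ ivs 𝔫, X v ∈ ivs 𝔫 := by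
  intro X hX v hv Y hY
  have h1 := hv _ (hid X hX Y hY)
  rw [LinearMap.sub_apply, Module.End.mul_apply, Module.End.mul_apply, hv Y hY, map_zero,
    zero_sub, neg_eq_zero] at h1
  exact h1

theorem img_inv {𝔥 𝔫 : Submodule ℚ (Module.End ℚ A.H1)} (h : A.Full 𝔥) (hle : 𝔫 ≤ 𝔥)
    (hid : ∀ X ∈ 𝔥, ∀ Y ∈ 𝔫, X * Y - Y * X ∈ 𝔫) {w : A.H1} (hw : w ∈ img 𝔫)
    (h0 : ∀ Y ∈ 𝔫, Y w = 0) : w = 0 := by
  obtain ⟨V', hV', hc⟩ := h.semi (ivs 𝔫) (ivs_stable hid)
  have h1 : img 𝔫 ≤ V' := img_le fun Y hY u => by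
    have h2 : u ∈ ivs 𝔫 ⊔ V' := by
      rw [hc.sup_eq_top]
      trivial
    obtain ⟨a, ha, b, hb, rfl⟩ := Submodule.mem_sup.1 h2
    rw [map_add, ha Y hY, zero_add]
    exact hV' Y (hle hY) b hb
  exact Submodule.disjoint_def.1 hc.disjoint w h0 (h1 hw)

/-- There are no invariants. -/
theorem no_inv {𝔥 : Submodule ℚ (Module.End ℚ A.H1)} (h : A.Full 𝔥) {u : A.H1}
    (hu : ∀ Y ∈ 𝔥, Y u = 0) : u = 0 := by
  by_contra hne
  obtain ⟨V', hV', hc⟩ := h.semi (ivs 𝔥) (ivs_stable h.br)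
  have huV : u ∉ V' := fun h1 => hne (Submodule.disjoint_def.1 hc.disjoint u hu h1)
  obtain ⟨φ, hφu, hφ⟩ := Submodule.exists_le_ker_of_notMem huV
  have hφV : ∀ v ∈ V', φ v = 0 := fun v hv => LinearMap.mem_ker.1 (hφ hv)
  have hY : ∀ Y ∈ 𝔥, ∀ w, φ (Y w) = 0 := by
    intro Y hY w
    have h2 : w ∈ ivs 𝔥 ⊔ V' := by
      rw [hc.sup_eq_top]
      trivial
    obtain ⟨a, ha, b, hb, rfl⟩ := Submodule.mem_sup.1 h2
    rw [map_add, ha Y hY, zero_add]
    exact hφV _ (hV' Y hY b hb)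
  have hX : ∀ X ∈ A.NA, φ u • X u = φ (X u) • u := by
    intro X hX
    have h1 := h.comm (LinearMap.smulRight φ u) (fun Y hY' => by
      refine LinearMap.ext fun w => ?_
      change Y (φ w • u) = φ (Y w) • u
      rw [map_smul, hu Y hY', hY Y hY' w, smul_zero, zero_smul]) X hX
    have h2 := congrArg (fun T : Module.End ℚ A.H1 => T u) h1
    change X (φ u • u) = φ (X u) • u at h2
    rwa [map_smul] at h2
  obtain ⟨j, hj⟩ : ∃ j, u j ≠ 0 := by
    by_contra hcon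
    push Not at hcon
    exact hne (funext hcon)
  have hjR : ((u j : ℚ) : ℝ) ≠ 0 := by exact_mod_cast hj
  obtain ⟨x, hx⟩ : ∃ x, x = Complex.I • A.per u := ⟨_, rfl⟩
  obtain ⟨ρ, hρ⟩ : ∃ ρ : ℝ, ρ = A.lam.repr x j / ((u j : ℚ) : ℝ) := ⟨_, rfl⟩
  have hρ' : A.lam.repr x j = u j • ρ := by
    rw [hρ, Rat.smul_def, mul_div_cancel₀ _ hjR]
  have hk : x = ρ • A.per u := by
    rw [← sub_eq_zero]
    refine A.cmp_sep fun t => ?_
    rw [map_sub, A.cmp_smul_per]
    have h1 := hX _ (A.MA_le_NA (A.J_mem t))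
    have h2 : A.cmpE t AbVar.JJ u = A.cmp t x := by
      rw [AbVar.cmpE_apply, AbVar.JJ_apply, hx]
    rw [h2] at h1
    have h3 := congrFun h1 j
    rw [Pi.smul_apply, Pi.smul_apply, smul_eq_mul, smul_eq_mul, AbVar.cmp_apply, hρ', map_smul,
      smul_eq_mul] at h3
    have h4 : φ (A.cmp t x) = φ u * t ρ := by
      have h5 : (φ (A.cmp t x) - φ u * t ρ) * u j = 0 := by linear_combination -h3
      exact sub_eq_zero.1 ((mul_eq_zero.1 h5).resolve_right hj)
    rw [h4, mul_smul] at h1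
    have h5 : φ u • (A.cmp t x - t ρ • u) = 0 := by
      rw [smul_sub, h1, sub_self]
    exact (smul_eq_zero.1 h5).resolve_left hφu
  have h1 : Complex.I • x = ρ • x := by
    conv_lhs => rw [hk]
    rw [smul_comm, hx]
  rw [hx, smul_smul, Complex.I_mul_I, neg_one_smul, ← hx, hk, smul_smul] at h1
  have h2 : (ρ * ρ + 1) • A.per u = 0 := by
    rw [add_smul, ← h1, one_smul, neg_add_cancel]
  have h3 : A.per u = 0 := by
    refine (smul_eq_zero.1 h2).resolve_left ?_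
    nlinarith [mul_self_nonneg ρ]
  exact hne (A.per_inj (by rw [h3, map_zero]))

theorem img_top {𝔥 : Submodule ℚ (Module.End ℚ A.H1)} (h : A.Full 𝔥) (w : A.H1) :
    w ∈ img 𝔥 := by
  obtain ⟨V', hV', hc⟩ := h.semi (img 𝔥) fun X hX v _ => Submodule.subset_span ⟨X, hX, v, rfl⟩
  have h1 : ∀ v ∈ V', v = 0 := fun v hv => no_inv h fun Y hY =>
    Submodule.disjoint_def.1 hc.disjoint _ (Submodule.subset_span ⟨Y, hY, v, rfl⟩)
      (hV' Y hY v hv)
  have h2 : w ∈ img 𝔥 ⊔ V' := by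
    rw [hc.sup_eq_top]
    trivial
  obtain ⟨a, ha, b, hb, rfl⟩ := Submodule.mem_sup.1 h2
  rw [h1 b hb, add_zero]
  exact ha

variable {lev : Fin r → Fin K}
  {H : Set (Matrix (Fin r ⊕ RI g n s) (Fin r ⊕ RI g n s) ℂ)} {d : Dt g n s}

/-- **The unipotent part in weight `-1`.** -/
theorem uu_img (h : PtM2 A d lev H) {z : Fin n ⊕ Fin s → A.H1}
    (hz : z ∈ uu (GG A n s lev H)) (hi : ∀ p, z p ∈ img (nn A (pp A n s lev H))) :
    z ∈ uu (NN A n s lev H) := by
  classical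
  have hP := pp_PtA h
  obtain ⟨π, hπ2, hπ0, hπc⟩ := exists_proj_aux (GG_Lg h).full.semi (uu (NN A n s lev H)) (by
    rintro _ ⟨L, hL, rfl⟩ z hz
    obtain ⟨t, ht⟩ := hz
    have h1 : (fun p => op L (z p)) ∈ uu (NN A n s lev H) := by
      have h2 := NN_br hL ht
      refine ⟨(OM.br L ((0, 0, z, t) : Tup A n s)).2.2.2, ?_⟩
      convert h2 using 1
      refine Prod.ext ?_ (Prod.ext rfl (Prod.ext ?_ rfl))
      · simp [OM.br]
      · funext p
        simp [OM.br, op_apply]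
    have h2 := (uu (NN A n s lev H)).sub_mem h1
      ((uu (NN A n s lev H)).smul_mem L.2.1 ⟨t, ht⟩)
    convert h2 using 1
    funext p
    change L.1 (z p) = op L (z p) - L.2.1 • z p
    rw [op_apply, add_sub_cancel_right])
  obtain ⟨t', ht'⟩ := hz
  rw [← hπ0]
  have key : ∀ Y ∈ nn A (pp A n s lev H), ∀ p, Y (π z p) = 0 := by
    intro Y hY p
    obtain ⟨L, hL, e1, e2⟩ := lift_nn h.grp hY
    have h1 : (fun p => L.1 (z p)) ∈ uu (NN A n s lev H) := by
      have h2 := NN_br ht' hL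
      have h3 : (fun p => -(L.1 (z p))) ∈ uu (NN A n s lev H) := by
        refine ⟨(OM.br ((0, 0, z, t') : Tup A n s) L).2.2.2, ?_⟩
        convert h2 using 1
        refine Prod.ext ?_ (Prod.ext rfl (Prod.ext ?_ rfl))
        · simp [OM.br]
        · funext p
          simp [OM.br, op_apply, e2]
      have h4 := (uu (NN A n s lev H)).neg_mem h3
      convert h4 using 1
      funext p
      exact (neg_neg _).symm
    rw [e1] at h1
    have h2 := hπc _ ⟨L, NN_le hL, e1⟩ z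
    rw [(hπ0 _).2 h1] at h2
    exact (congrFun h2 p).symm
  -- the components of the projector
  let f : (Fin n ⊕ Fin s) → (Fin n ⊕ Fin s) → Module.End ℚ A.H1 := fun p q =>
    (LinearMap.proj p ∘ₗ π) ∘ₗ LinearMap.single ℚ (fun _ => A.H1) q
  have hfπ : ∀ z p, π z p = ∑ q, f p q (z q) := by
    intro z p
    have h1 : z = ∑ q, (LinearMap.single ℚ (fun _ => A.H1) q (z q)) := by
      funext q
      rw [Finset.sum_apply, Finset.sum_eq_single q]
      · simp
      · intro b _ hb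
        simp [hb.symm]
      · intro hq
        exact absurd (Finset.mem_univ _) hq
    conv_lhs => rw [h1, map_sum, Finset.sum_apply]
    rfl
  have hfc : ∀ p q, ∀ Y ∈ aa (GG A n s lev H), ∀ x, Y (f p q x) = f p q (Y x) := by
    intro p q Y hY x
    have h1 := congrFun (hπc Y hY (Pi.single q x)) p
    have h2 : (fun p => Y ((Pi.single q x : (Fin n ⊕ Fin s) → A.H1) p)) =
        (Pi.single q (Y x) : (Fin n ⊕ Fin s) → A.H1) := by
      funext p'
      by_cases hp : p' = q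
      · subst hp
        rw [Pi.single_eq_same, Pi.single_eq_same]
      · rw [Pi.single_eq_of_ne hp, Pi.single_eq_of_ne hp, map_zero]
    rw [h2] at h1
    exact h1.symm
  have hfi : ∀ p q, ∀ x ∈ img (nn A (pp A n s lev H)), f p q x ∈ img (nn A (pp A n s lev H)) := by
    intro p q x hx
    unfold img at hx
    induction hx using Submodule.span_induction with
    | mem x hx =>
      obtain ⟨Y, hY, u, rfl⟩ := hx
      obtain ⟨L, hL, e1, -⟩ := lift_nn h.grp hY
      rw [← hfc p q Y ⟨L, NN_le hL, e1⟩ u]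
      exact Submodule.subset_span ⟨Y, hY, _, rfl⟩
    | zero =>
      rw [map_zero]
      exact Submodule.zero_mem _
    | add a b _ _ ha hb =>
      rw [map_add]
      exact Submodule.add_mem _ ha hb
    | smul c a _ ha =>
      rw [map_smul]
      exact Submodule.smul_mem _ c ha
  funext p
  refine img_inv (hb_full hP) nn_le_hb (fun X hX Y hY => nn_ideal hP hX hY) ?_ fun Y hY =>
    key Y hY p
  rw [hfπ]
  exact Submodule.sum_mem _ fun q _ => hfi p q _ (hi q)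

end gen

variable {lev : Fin r → Fin K} {H : Set (Matrix (Fin r ⊕ RI g n s) (Fin r ⊕ RI g n s) ℂ)}

/-- **The unipotent elements of the group.** -/
theorem unip_mem {A : AbVarG g} {d : Dt g n s} (h : PtM2 A.toAbVar d lev H)
    {K₁ : IntermediateField ℚ ℂ}
    [FiniteDimensional ℚ K₁] (hu : ∀ p (m : ℕ), IsRat A.toAbVar K₁ (m • pt d p))
    {z : Fin n ⊕ Fin s → A.H1} (hz : Rel A.toAbVar d z)
    (hi : ∀ p, z p ∈ img (nn A.toAbVar (pp A.toAbVar n s lev H))) :
    ∃ t : Fin n → Fin s → ℚ,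
      fromBlocks 1 0 0 (1 + OM.mt ((0, 0, z, t) : Tup A.toAbVar n s) +
        (2 : ℂ)⁻¹ • OM.mt ((0, 0, 0, fun i l => A.toAbVar.om (z (Sum.inr l)) (z (Sum.inl i))) :
          Tup A.toAbVar n s)) ∈ H := by
  obtain ⟨u⟩ := main2 (GG_Lg h) hu
  have h1 : z ∈ uu (GG A.toAbVar n s lev H) := by
    rw [← u.π0]
    funext p
    rw [u.fπ]
    refine hz _ _ (fun q => u.fF p q) ⟨∑ q, u.f p q (u.w q), ?_⟩
    have h5 := u.rel p
    simp only [map_sub] at h5
    rw [Finset.sum_sub_distrib, sub_eq_zero] at h5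
    rw [map_sum]
    simp only [u.fF]
    rw [← h5]
  obtain ⟨t, ht⟩ := uu_img h h1 hi
  refine ⟨t, ?_⟩
  rw [← exp_unip]
  exact exp_PP h.grp ht.2

end Pool.Agent.H621.RM
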