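import Pool.Agent.H621.RM.Abs

set_option autoImplicit false
set_option linter.unusedSectionVars false

/-!
# The complex Lie algebra of the Hodge group, and the extension by a scalar block
-/

open Module TensorProduct Matrix Polynomial

noncomputable section

namespace Pool.Agent.H621.RM

open Pool.Agent.Y102 Pool.Agent.W516.DR Pool.Agent.H204R3.GP Pool.Agent.W516.KC
  Pool.Agent.H204R3.SP Pool.Agent.TH119.MX Pool.Agent.R917 Pool.Agent.R917.DT
  Pool.Agent.R917.EC Pool.Agent.H621.BC Pool.Agent.R917.OM Pool.Agent.Y102.AbVar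

open Pool.Agent.H621.RK (R2 rm_br bd bd_apply comp_of_span mem_span_comp)

section ns

variable {h : ℕ} {A : AbVar h}

variable (A) in
/-- the complex span of the Lie algebra of the Hodge group -/
def NS : Submodule ℂ (Matrix (Fin (2 * h)) (Fin (2 * h)) ℂ) :=
  Submodule.span ℂ {Z | ∃ Y ∈ A.NA, Z = rm Y}

theorem mem_NS_iff {α : Matrix (Fin (2 * h)) (Fin (2 * h)) ℂ} :
    α ∈ NS A ↔ ∀ lam : ℂ →ₗ[ℚ] ℚ, ∃ Y ∈ A.NA, rm Y = α.map (lamF lam) :=
  ⟨comp_of_span, mem_span_comp⟩

theorem NS_rm {Y : Module.End ℚ A.H1} (hY : Y ∈ A.NA) : rm Y ∈ NS A :=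
  Submodule.subset_span ⟨Y, hY, rfl⟩

theorem NS_br {α β : Matrix (Fin (2 * h)) (Fin (2 * h)) ℂ} (hα : α ∈ NS A) (hβ : β ∈ NS A) :
    α * β - β * α ∈ NS A := by
  unfold NS at hα
  induction hα using Submodule.span_induction with
  | mem Z hZ =>
    obtain ⟨X, hX, rfl⟩ := hZ
    unfold NS at hβ
    induction hβ using Submodule.span_induction with
    | mem W hW =>
      obtain ⟨Y, hY, rfl⟩ := hW
      have h1 := NS_rm (A.NA_bracket hY hX)
      rw [rm_br] at h1
      exact h1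
    | zero =>
      rw [mul_zero, zero_mul, sub_zero]
      exact Submodule.zero_mem _
    | add a b _ _ ha hb =>
      have h1 := (NS A).add_mem ha hb
      convert h1 using 1
      noncomm_ring
    | smul c a _ ha =>
      have h1 := (NS A).smul_mem c ha
      convert h1 using 1
      rw [mul_smul_comm, smul_mul_assoc, smul_sub]
  | zero =>
    rw [mul_zero, zero_mul, sub_zero]
    exact Submodule.zero_mem _
  | add a b _ _ ha hb =>
    have h1 := (NS A).add_mem ha hb
    convert h1 using 1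
    noncomm_ring
  | smul c a _ ha =>
    have h1 := (NS A).smul_mem c ha
    convert h1 using 1
    rw [mul_smul_comm, smul_mul_assoc, smul_sub]

theorem NS_mapF {α : Matrix (Fin (2 * h)) (Fin (2 * h)) ℂ} (hα : α ∈ NS A) (f : ℂ →ₗ[QQ] ℂ) :
    α.map f ∈ NS A := by
  rw [mem_NS_iff] at hα ⊢
  intro lam
  obtain ⟨Y, hY, h1⟩ := hα (lam ∘ₗ f.toAddMonoidHom.toRatLinearMap)
  exact ⟨Y, hY, h1⟩

theorem rm_cmpE' (lam : ℂ →ₗ[ℚ] ℚ) (T : Module.End ℂ (ℂ ⊗[ℚ] A.H1)) :
    rm (Pool.Agent.W516.DR.cmpE lam T) =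
      (LinearMap.toMatrixAlgEquiv (A.bas.baseChange ℂ) T)ᵀ.map (lamF lam) := by
  ext j i
  rw [Matrix.map_apply, Matrix.transpose_apply, LinearMap.toMatrixAlgEquiv_apply, lamF_apply,
    Basis.baseChange_apply, ← repr_cmp, ← Pool.Agent.W516.DR.cmpE_apply]
  unfold bas
  rw [Pi.basisFun_apply]
  rfl

/-- Replicas of the diagonalizable elements of the complex Lie algebra. -/
theorem NS_rep {α : Matrix (Fin (2 * h)) (Fin (2 * h)) ℂ} (hα : α ∈ NS A) {s : Finset ℂ}
    (hs : aeval α (Lagrange.nodal s id) = 0) (σ : ℂ →+ ℂ) {Q : ℂ[X]}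
    (hQ : ∀ a ∈ s, Q.eval a = σ a) : aeval α Q ∈ NS A := by
  let e := LinearMap.toMatrixAlgEquiv (A.bas.baseChange ℂ)
  obtain ⟨T, hT⟩ : ∃ T : Module.End ℂ (ℂ ⊗[ℚ] A.H1), e T = αᵀ := ⟨e.symm αᵀ, e.apply_symm_apply _⟩
  have hae : ∀ P : ℂ[X], e (aeval T P) = (aeval α P)ᵀ := by
    intro P
    rw [← Polynomial.aeval_algHom_apply, hT, aeval_transpose]
  have hT0 : aeval T (Lagrange.nodal s id) = 0 := by
    apply e.injective
    rw [hae, hs, Matrix.transpose_zero, map_zero]
  have hTN : ∀ mu : ℂ →ₗ[ℚ] ℚ, Pool.Agent.W516.DR.cmpE mu T ∈ A.NA := by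
    intro mu
    obtain ⟨Y, hY, h1⟩ := mem_NS_iff.1 hα mu
    have h2 : rm (Pool.Agent.W516.DR.cmpE mu T) = rm Y := by
      rw [rm_cmpE', h1]
      change (e T)ᵀ.map _ = _
      rw [hT, Matrix.transpose_transpose]
    rw [rm_inj' h2]
    exact hY
  rw [mem_NS_iff]
  intro lam
  refine ⟨Pool.Agent.W516.DR.cmpE lam (aeval T Q), ?_, ?_⟩
  · intro m φ h1 h2
    refine (kills_bcm_iff A.bas φ _).1 (kills_replica hT0 σ hQ ?_) lam
    rw [kills_bcm_iff]
    intro mu
    exact hTN mu m φ h1 h2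
  · rw [rm_cmpE']
    change (e (aeval T Q))ᵀ.map _ = _
    rw [hae, Matrix.transpose_transpose]

end ns

/-! ### The extension by a scalar block -/

section ext

variable {r K : ℕ}

/-- the block diagonal matrix with an additional scalar block -/
def exA : (Matrix (Fin r) (Fin r) ℂ × ℂ) →ₐ[ℂ] Matrix (Fin (r + 1)) (Fin (r + 1)) ℂ :=
  (Matrix.reindexAlgEquiv ℂ ℂ (finSumFinEquiv (m := r) (n := 1))).toAlgHom.comp
    ((bd (r := r) (I := Fin 1)).comp
      (AlgHom.prodMap (AlgHom.id ℂ (Matrix (Fin r) (Fin r) ℂ))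
        (Algebra.ofId ℂ (Matrix (Fin 1) (Fin 1) ℂ))))

theorem exA_apply (x : Matrix (Fin r) (Fin r) ℂ) (b : ℂ) (p q : Fin r ⊕ Fin 1) :
    exA (x, b) (finSumFinEquiv p) (finSumFinEquiv q) =
      Sum.elim (fun i => Sum.elim (fun j => x i j) (fun _ => 0) q)
        (fun _ => Sum.elim (fun _ => 0) (fun _ => b) q) p := by
  change bd ((x, algebraMap ℂ (Matrix (Fin 1) (Fin 1) ℂ) b) : R2 r (Fin 1))
    (finSumFinEquiv.symm (finSumFinEquiv p)) (finSumFinEquiv.symm (finSumFinEquiv q)) = _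
  rw [Equiv.symm_apply_apply, Equiv.symm_apply_apply, bd_apply]
  rcases p with i | i <;> rcases q with j | j
  · rfl
  · rfl
  · rfl
  · change algebraMap ℂ (Matrix (Fin 1) (Fin 1) ℂ) b i j = b
    rw [Subsingleton.elim i j, Matrix.algebraMap_matrix_apply, if_pos rfl]
    rfl

theorem exA_inj {z w : Matrix (Fin r) (Fin r) ℂ × ℂ} (h : exA z = exA w) : z = w := by
  obtain ⟨x, b⟩ := z
  obtain ⟨y, c⟩ := w
  refine Prod.ext ?_ ?_
  · ext i j
    have h1 := congrFun (congrFun h (finSumFinEquiv (Sum.inl i))) (finSumFinEquiv (Sum.inl j))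
    rw [exA_apply, exA_apply] at h1
    exact h1
  · have h1 := congrFun (congrFun h (finSumFinEquiv (Sum.inr 0))) (finSumFinEquiv (Sum.inr 0))
    rw [exA_apply, exA_apply] at h1
    exact h1

theorem exA_map (x : Matrix (Fin r) (Fin r) ℂ) (b : ℂ) (f : ℂ →ₗ[QQ] ℂ) :
    (exA (x, b)).map f = exA (x.map f, f b) := by
  ext i j
  obtain ⟨p, rfl⟩ := finSumFinEquiv.surjective i
  obtain ⟨q, rfl⟩ := finSumFinEquiv.surjective j
  rw [Matrix.map_apply, exA_apply, exA_apply]
  rcases p with i | i <;> rcases q with j | j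
  · rfl
  · exact map_zero f
  · exact map_zero f
  · rfl

/-- the levels of the extension -/
def lev' (lev : Fin r → Fin K) (i : Fin (r + 1)) : Fin (K + 1) :=
  Sum.elim (fun a => (lev a).castSucc) (fun _ => Fin.last K)
    ((finSumFinEquiv (m := r) (n := 1)).symm i)

variable {lev : Fin r → Fin K}

theorem lev'_apply (p : Fin r ⊕ Fin 1) : lev' lev (finSumFinEquiv p) =
    Sum.elim (fun a => (lev a).castSucc) (fun _ => Fin.last K) p := by
  unfold lev'
  rw [Equiv.symm_apply_apply]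

theorem exA_BT {x : Matrix (Fin r) (Fin r) ℂ} (hx : BT lev x) (b : ℂ) :
    BT (lev' lev) (exA (x, b)) := by
  intro i j
  obtain ⟨p, rfl⟩ := finSumFinEquiv.surjective i
  obtain ⟨q, rfl⟩ := finSumFinEquiv.surjective j
  rw [lev'_apply, lev'_apply, exA_apply]
  rcases p with i | i <;> rcases q with j | j
  · intro h
    exact hx i j (Fin.castSucc_lt_castSucc_iff.1 h)
  · intro _
    rfl
  · intro _
    rfl
  · intro h
    exact absurd h (lt_irrefl _)

theorem card_lev' (l : Fin (K + 1)) : Fintype.card {i // lev' lev i = l} =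
    Fintype.card {a : Fin r // (lev a).castSucc = l} +
      Fintype.card {_b : Fin 1 // Fin.last K = l} := by
  rw [← Fintype.card_sum]
  refine Fintype.card_congr ?_
  refine (Equiv.subtypeEquiv (q := fun p : Fin r ⊕ Fin 1 =>
    Sum.elim (fun a => (lev a).castSucc) (fun _ => Fin.last K) p = l)
    (finSumFinEquiv (m := r) (n := 1)).symm fun i => Iff.rfl).trans ?_
  exact Equiv.subtypeSum

theorem card_castSucc (l : Fin K) : Fintype.card {i // lev' lev i = l.castSucc} =
    Fintype.card {i // lev i = l} := by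
  rw [card_lev']
  have h1 : Fintype.card {_b : Fin 1 // Fin.last K = l.castSucc} = 0 := by
    rw [Fintype.card_eq_zero_iff]
    exact ⟨fun b => (Fin.castSucc_lt_last l).ne' b.2⟩
  rw [h1, add_zero]
  refine Fintype.card_congr (Equiv.subtypeEquivRight fun a => ?_)
  exact Fin.castSucc_inj

theorem card_last : Fintype.card {i // lev' lev i = Fin.last K} = 1 := by
  rw [card_lev']
  have h1 : Fintype.card {a : Fin r // (lev a).castSucc = Fin.last K} = 0 := by
    rw [Fintype.card_eq_zero_iff]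
    exact ⟨fun b => (Fin.castSucc_lt_last (lev b.1)).ne b.2⟩
  rw [h1, zero_add, Fintype.card_eq_one_iff]
  exact ⟨⟨0, rfl⟩, fun b => Subtype.ext (Subsingleton.elim _ _)⟩

theorem sum_lev' : ∑ l : Fin (K + 1), Fintype.card {i // lev' lev i = l} / 2 =
    ∑ l : Fin K, Fintype.card {i // lev i = l} / 2 := by
  rw [Fin.sum_univ_castSucc, card_last]
  simp only [card_castSucc]
  rfl

theorem le_one_lev' (h : ∀ l : Fin K, Fintype.card {i // lev i = l} ≤ 1) (l : Fin (K + 1)) :
    Fintype.card {i // lev' lev i = l} ≤ 1 := by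
  refine Fin.lastCases ?_ (fun l => ?_) l
  · exact card_last.le
  · rw [card_castSucc]
    exact h l

end ext

end Pool.Agent.H621.RM
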