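import Pool.Agent.H621.RM.Ns

set_option autoImplicit false
set_option linter.unusedSectionVars false

/-!
# The Lie algebra of a group which contains the periods of a 1-motive: the pure part
-/

open Module TensorProduct Matrix Polynomial

noncomputable section

namespace Pool.Agent.H621.RM

open Pool.Agent.Y102 Pool.Agent.W516.DR Pool.Agent.H204R3.GP Pool.Agent.W516.KC
  Pool.Agent.H204R3.SP Pool.Agent.TH119.MX Pool.Agent.R917 Pool.Agent.R917.DT
  Pool.Agent.R917.EC Pool.Agent.H621.BC Pool.Agent.R917.OM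

open Pool.Agent.H621.RK (R2 rm_br bd bd_apply comp_of_span mem_span_comp PP PP_br PP_comp PP_mapF
  PP_aeval aeval_zero_of exists_crt aeval_eq_of nodal_dvd_pow scal_br)

variable {r K g n s : ℕ}

section blk

variable {M M' : Matrix (RI g n s) (RI g n s) ℂ} {α α' : Matrix (Fin (2 * g)) (Fin (2 * g)) ℂ}
  {β γ β' γ' : ℂ}

theorem blk_smul (a : ℂ) (h : Blk M α β γ) : Blk (a • M) (a • α) (a * β) (a * γ) where
  jj := fun j j' => by rw [Matrix.smul_apply, h.jj, Matrix.smul_apply]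
  ji := fun j i => by rw [Matrix.smul_apply, h.ji, smul_zero]
  lj := fun l j => by rw [Matrix.smul_apply, h.lj, smul_zero]
  ll := fun l l' => by
    rw [Matrix.smul_apply, h.ll]
    split_ifs <;> simp
  li := fun l i => by rw [Matrix.smul_apply, h.li, smul_zero]
  ii := fun i i' => by
    rw [Matrix.smul_apply, h.ii]
    split_ifs <;> simp

theorem blk_map (f : ℂ →ₗ[QQ] ℂ) (h : Blk M α β γ) : Blk (M.map f) (α.map f) (f β) (f γ) where
  jj := fun j j' => by rw [Matrix.map_apply, h.jj, Matrix.map_apply]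
  ji := fun j i => by rw [Matrix.map_apply, h.ji, map_zero]
  lj := fun l j => by rw [Matrix.map_apply, h.lj, map_zero]
  ll := fun l l' => by
    rw [Matrix.map_apply, h.ll]
    split_ifs
    · rfl
    · exact map_zero f
  li := fun l i => by rw [Matrix.map_apply, h.li, map_zero]
  ii := fun i i' => by
    rw [Matrix.map_apply, h.ii]
    split_ifs
    · rfl
    · exact map_zero f

theorem blk_zero : Blk (0 : Matrix (RI g n s) (RI g n s) ℂ) 0 0 0 where
  jj := fun _ _ => rfl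
  ji := fun _ _ => rfl
  lj := fun _ _ => rfl
  ll := fun l l' => by rw [ite_self]; rfl
  li := fun _ _ => rfl
  ii := fun i i' => by rw [ite_self]; rfl

theorem blk_comm (h : Blk M α β 0) (h' : Blk M' α' β' 0) :
    Blk (M * M' - M' * M) (α * α' - α' * α) 0 0 := by
  have h1 := (h.mul h').add (blk_smul (-1) (h'.mul h))
  have e1 : M * M' + (-1 : ℂ) • (M' * M) = M * M' - M' * M := by
    rw [neg_one_smul, ← sub_eq_add_neg]
  have e2 : α * α' + (-1 : ℂ) • (α' * α) = α * α' - α' * α := by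
    rw [neg_one_smul, ← sub_eq_add_neg]
  have e3 : β * β' + -1 * (β' * β) = 0 := by ring
  have e4 : (0 : ℂ) * 0 + -1 * (0 * 0) = 0 := by ring
  rw [e1, e2, e3, e4] at h1
  exact h1

end blk

variable {A : AbVar g} {lev : Fin r → Fin K}
  {H : Set (Matrix (Fin r ⊕ RI g n s) (Fin r ⊕ RI g n s) ℂ)}

theorem f_two (f : ℂ →ₗ[QQ] ℂ) (c : ℂ) : f (2 * c) = 2 * f c := by
  rw [two_mul, map_add, two_mul]

theorem f_scal (f : ℂ →ₗ[QQ] ℂ) (α : Matrix (Fin (2 * g)) (Fin (2 * g)) ℂ) (c : ℂ) :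
    (α + c • 1).map f = α.map f + (f c) • 1 := by
  ext i j
  rw [Matrix.map_apply, Matrix.add_apply, Matrix.add_apply, Matrix.smul_apply, Matrix.smul_apply,
    Matrix.map_apply, map_add, Matrix.one_apply]
  split_ifs
  · rw [smul_eq_mul, mul_one, smul_eq_mul, mul_one]
  · rw [smul_zero, map_zero, smul_zero]

/-- The pure part of the Lie algebra: the first component is extended by the Tate twist. -/
def pp (A : AbVar g) (n s : ℕ) (lev : Fin r → Fin K)
    (H : Set (Matrix (Fin r ⊕ RI g n s) (Fin r ⊕ RI g n s) ℂ)) :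
    Submodule ℂ (R2 (r + 1) (Fin (2 * g))) where
  carrier := {z | ∃ (x : Matrix (Fin r) (Fin r) ℂ) (c : ℂ)
    (α : Matrix (Fin (2 * g)) (Fin (2 * g)) ℂ) (Y : Matrix (RI g n s) (RI g n s) ℂ),
    z = (exA (x, 2 * c), α + c • 1) ∧ α ∈ NS A ∧ Blk Y (α + c • 1) (2 * c) 0 ∧
      ((x, Y) : R2 r (RI g n s)) ∈ PP lev H}
  zero_mem' := by
    refine ⟨0, 0, 0, 0, ?_, Submodule.zero_mem _, ?_, Submodule.zero_mem _⟩
    · rw [mul_zero, zero_smul, add_zero]
      refine Prod.ext ?_ rfl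
      exact (map_zero exA).symm
    · rw [mul_zero, zero_smul, add_zero]
      exact blk_zero
  add_mem' := by
    rintro _ _ ⟨x, c, α, Y, rfl, h1, h2, h3⟩ ⟨x', c', α', Y', rfl, h1', h2', h3'⟩
    refine ⟨x + x', c + c', α + α', Y + Y', ?_, Submodule.add_mem _ h1 h1', ?_,
      Submodule.add_mem _ h3 h3'⟩
    · refine Prod.ext ?_ ?_
      · change exA (x, 2 * c) + exA (x', 2 * c') = _
        rw [← map_add, Prod.mk_add_mk, mul_add]
      · change α + c • 1 + (α' + c' • 1) = α + α' + (c + c') • 1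
        rw [add_smul]
        abel
    · have h4 := h2.add h2'
      convert h4 using 1
      · rw [add_smul]
        abel
      · ring
      · ring
  smul_mem' := by
    rintro a _ ⟨x, c, α, Y, rfl, h1, h2, h3⟩
    refine ⟨a • x, a * c, a • α, a • Y, ?_, Submodule.smul_mem _ _ h1, ?_,
      Submodule.smul_mem _ _ h3⟩
    · refine Prod.ext ?_ ?_
      · change a • exA (x, 2 * c) = _
        rw [← map_smul, Prod.smul_mk, smul_eq_mul, mul_left_comm]
      · change a • (α + c • 1) = a • α + (a * c) • 1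
        rw [smul_add, smul_smul]
    · have h4 := blk_smul a h2
      convert h4 using 1
      · rw [smul_add, smul_smul]
      · ring
      · ring

theorem pp_br {z w : R2 (r + 1) (Fin (2 * g))} (hz : z ∈ pp A n s lev H)
    (hw : w ∈ pp A n s lev H) : z * w - w * z ∈ pp A n s lev H := by
  obtain ⟨x, c, α, Y, rfl, h1, h2, h3⟩ := hz
  obtain ⟨x', c', α', Y', rfl, h1', h2', h3'⟩ := hw
  refine ⟨x * x' - x' * x, 0, α * α' - α' * α, Y * Y' - Y' * Y, ?_, NS_br h1 h1', ?_,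
    PP_br h3 h3'⟩
  · refine Prod.ext ?_ ?_
    · change exA (x, 2 * c) * exA (x', 2 * c') - exA (x', 2 * c') * exA (x, 2 * c) = _
      rw [← map_mul, ← map_mul, ← map_sub, Prod.mk_mul_mk, Prod.mk_mul_mk, Prod.mk_sub_mk]
      congr 2
      ring
    · change (α + c • 1) * (α' + c' • 1) - (α' + c' • 1) * (α + c • 1) = _
      rw [scal_br, zero_smul, add_zero]
  · have h4 := blk_comm h2 h2'
    rw [scal_br] at h4
    rw [mul_zero, zero_smul, add_zero]
    exact h4

theorem pp_comp (hH : AlgGrp QQ H) {z : R2 (r + 1) (Fin (2 * g))} (hz : z ∈ pp A n s lev H)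
    (f : ℂ →ₗ[QQ] ℂ) : ((z.1.map f, z.2.map f) : R2 (r + 1) (Fin (2 * g))) ∈ pp A n s lev H := by
  obtain ⟨x, c, α, Y, rfl, h1, h2, h3⟩ := hz
  refine ⟨x.map f, f c, α.map f, Y.map f, ?_, NS_mapF h1 f, ?_, PP_mapF hH h3 f⟩
  · refine Prod.ext ?_ ?_
    · change (exA (x, 2 * c)).map f = _
      rw [exA_map, f_two]
    · exact f_scal f α c
  · have h4 := blk_map f h2
    rw [f_two, f_scal, map_zero] at h4
    exact h4

/-- **Replicas.** -/
theorem pp_rep {x₁ : Matrix (Fin (r + 1)) (Fin (r + 1)) ℂ}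
    {y : Matrix (Fin (2 * g)) (Fin (2 * g)) ℂ} {sx sy : Finset ℂ} {N : ℕ}
    (hx : aeval x₁ (Lagrange.nodal sx id ^ N) = 0) (hy : aeval y (Lagrange.nodal sy id) = 0)
    (hz : ((x₁, y) : R2 (r + 1) (Fin (2 * g))) ∈ pp A n s lev H) (σ : ℂ →+ ℂ) {Q : ℂ[X]}
    (hQ : ∀ a ∈ sy, Q.eval a = σ a) :
    ∃ x' : Matrix (Fin (r + 1)) (Fin (r + 1)) ℂ,
      ((x', aeval y Q) : R2 (r + 1) (Fin (2 * g))) ∈ pp A n s lev H ∧
        ((∀ a ∈ sx, σ a = 0) → x' = 0) := by
  classical
  obtain ⟨x, c, α, Y, h0, h1, h2, h3⟩ := hz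
  obtain ⟨rfl, rfl⟩ := Prod.ext_iff.1 h0
  clear h0
  change aeval (α + c • 1) (Lagrange.nodal sy id) = 0 at hy
  change aeval (exA (x, 2 * c)) (Lagrange.nodal sx id ^ N) = 0 at hx
  rw [Polynomial.aeval_algHom_apply] at hx
  have hx' := exA_inj (hx.trans (map_zero exA).symm)
  have hx1 : aeval x (Lagrange.nodal sx id ^ N) = 0 := by
    have e1 := Polynomial.aeval_algHom_apply (AlgHom.fst ℂ (Matrix (Fin r) (Fin r) ℂ) ℂ)
      ((x, 2 * c) : Matrix (Fin r) (Fin r) ℂ × ℂ) (Lagrange.nodal sx id ^ N)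
    rw [hx'] at e1
    exact e1
  have hc1 : 2 * c ∈ sx := by
    have e1 := Polynomial.aeval_algHom_apply (AlgHom.snd ℂ (Matrix (Fin r) (Fin r) ℂ) ℂ)
      ((x, 2 * c) : Matrix (Fin r) (Fin r) ℂ × ℂ) (Lagrange.nodal sx id ^ N)
    rw [hx'] at e1
    have e2 : (Lagrange.nodal sx (id : ℂ → ℂ) ^ N).eval (2 * c) = 0 := by
      rw [← Polynomial.coe_aeval_eq_eval]
      exact e1
    rw [eval_pow] at e2
    have e3 : (Lagrange.nodal sx (id : ℂ → ℂ)).eval (2 * c) = 0 := eq_zero_of_pow_eq_zero e2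
    rw [Lagrange.eval_nodal, Finset.prod_eq_zero_iff] at e3
    obtain ⟨a, ha, e4⟩ := e3
    rw [sub_eq_zero.1 e4]
    exact ha
  obtain ⟨S, hS⟩ : ∃ S : Finset ℂ, S = insert 0 (sx ∪ sy) := ⟨_, rfl⟩
  have hSx : sx ⊆ S := by
    rw [hS]
    exact (Finset.subset_union_left).trans (Finset.subset_insert _ _)
  have hSy : sy ⊆ S := by
    rw [hS]
    exact (Finset.subset_union_right).trans (Finset.subset_insert _ _)
  have h0S : (0 : ℂ) ∈ S := by
    rw [hS]
    exact Finset.mem_insert_self _ _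
  have hY3 : aeval Y (Lagrange.nodal S id ^ 3) = 0 := by
    have e1 := h2.aeval (Lagrange.nodal S id)
    have e2 : (Lagrange.nodal S (id : ℂ → ℂ)).eval (2 * c) = 0 :=
      Lagrange.eval_nodal_at_node (v := id) (hSx hc1)
    have e3 : (Lagrange.nodal S (id : ℂ → ℂ)).eval 0 = 0 :=
      Lagrange.eval_nodal_at_node (v := id) h0S
    rw [e2, e3, aeval_mono hy hSy] at e1
    rw [map_pow, pow_succ, pow_two]
    exact Blk.triple e1 e1 e1
  obtain ⟨Q', hQ'⟩ := exists_crt S (N + 3) σ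
  have hz0 : aeval ((x, Y) : R2 r (RI g n s)) (Lagrange.nodal S id ^ (N + 3)) = 0 := by
    rw [Pool.Agent.H621.RK.aeval_prod]
    refine Prod.ext ?_ ?_
    · obtain ⟨P, hP⟩ := nodal_dvd_pow hSx (Nat.le_add_right N 3)
      change aeval x (Lagrange.nodal S id ^ (N + 3)) = 0
      rw [hP, map_mul, hx1, zero_mul]
    · change aeval Y (Lagrange.nodal S id ^ (N + 3)) = 0
      rw [pow_add, map_mul, hY3, mul_zero]
  have h4 := PP_aeval hz0 σ hQ' h3
  rw [Pool.Agent.H621.RK.aeval_prod] at h4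
  have hval : ∀ a ∈ S, Q'.eval a = σ a := by
    intro a ha
    have e1 := (dvd_pow_self (X - C a : ℂ[X]) (Nat.succ_ne_zero (N + 2))).trans (hQ' a ha)
    rw [dvd_iff_isRoot, IsRoot.def, eval_sub, eval_C, sub_eq_zero] at e1
    exact e1
  have hQQ : aeval (α + c • 1) Q' = aeval (α + c • 1) Q :=
    aeval_congr hy fun a ha => by rw [hval a (hSy ha), hQ a ha]
  have hσ2 : σ (2 * c) = 2 * σ c := by rw [two_mul, map_add, two_mul]
  have h5 := h2.aeval Q'
  rw [hQQ, hval _ (hSx hc1), hσ2, hval _ h0S, map_zero] at h5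
  -- the element of the complex Lie algebra
  have hα : aeval α (Lagrange.nodal (sy.image fun a => a - c) id) = 0 := by
    have e1 : α = (α + c • 1) + (-c) • 1 := by
      rw [neg_smul, add_neg_cancel_right]
    rw [e1, aeval_shift]
    have e2 : aeval (α + c • 1) ((Lagrange.nodal (sy.image fun a => a - c) id).comp
        (X + C (-c))) = aeval (α + c • 1) (0 : ℂ[X]) := by
      refine aeval_congr hy fun a ha => ?_
      rw [eval_comp, eval_add, eval_X, eval_C, eval_zero, ← sub_eq_add_neg]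
      exact Lagrange.eval_nodal_at_node (v := id) (i := a - c)
        (Finset.mem_image.2 ⟨a, ha, rfl⟩)
    rw [e2, map_zero]
  have h6 : aeval (α + c • 1) Q - σ c • 1 ∈ NS A := by
    have e1 := NS_rep h1 hα σ (Q := Q.comp (X + C c) - C (σ c)) (fun a ha => by
      obtain ⟨b, hb, rfl⟩ := Finset.mem_image.1 ha
      rw [eval_sub, eval_comp, eval_add, eval_X, eval_C, eval_C, sub_add_cancel, hQ b hb,
        map_sub])
    rw [map_sub, ← aeval_shift, aeval_C, Algebra.algebraMap_eq_smul_one] at e1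
    exact e1
  refine ⟨exA (aeval x Q', 2 * σ c), ⟨aeval x Q', σ c, aeval (α + c • 1) Q - σ c • 1,
    aeval Y Q', ?_, h6, ?_, h4⟩, fun hσ => ?_⟩
  · rw [sub_add_cancel]
  · rw [sub_add_cancel]
    exact h5
  · have e1 : aeval x Q' = 0 := by
      refine aeval_zero_of hx1 fun a ha => ?_
      have e2 := hQ' a (hSx ha)
      rw [hσ a ha, C_0, sub_zero] at e2
      exact (pow_dvd_pow _ (Nat.le_add_right N 3)).trans e2
    have e2 := hσ _ hc1
    rw [e1, ← hσ2, e2]
    exact map_zero exA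

/-- **The pure part is a Lie algebra of pairs.** -/
theorem pp_LP (hH : AlgGrp QQ H) : LP (lev' lev) (pp A n s lev H) where
  bt := by
    rintro _ ⟨x, c, α, Y, rfl, h1, h2, h3⟩
    exact exA_BT h3.1 _
  br := fun z hz w hw => pp_br hz hw
  comp := fun z hz f => pp_comp hH hz f
  rep := fun x y sx sy N hx hy hz σ Q hQ => pp_rep hx hy hz σ hQ

/-- A group which contains the periods: its Lie algebra contains the logarithmic derivatives. -/
structure PtM2 (A : AbVar g) (d : Dt g n s) (lev : Fin r → Fin K)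
    (H : Set (Matrix (Fin r ⊕ RI g n s) (Fin r ⊕ RI g n s) ℂ)) : Prop where
  grp : AlgGrp QQ H
  der : ∀ D : Derivation QBar ℂ ℂ, ∃ x : Matrix (Fin r) (Fin r) ℂ,
    ((x, YD A d D) : R2 r (RI g n s)) ∈ PP lev H

variable {d : Dt g n s}

theorem LD_lift (h : PtM2 A d lev H) (D : Derivation QBar ℂ ℂ) (lam : ℂ →ₗ[ℚ] ℚ) :
    ∃ x : Matrix (Fin r) (Fin r) ℂ, ((x, OM.mt (LD A d D lam)) : R2 r (RI g n s)) ∈ PP lev H := by
  obtain ⟨x, hx⟩ := h.der D
  have h1 := PP_comp h.grp hx lam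
  refine ⟨x.map (lamF lam), ?_⟩
  rw [mt_LD]
  exact h1

theorem LD_NA (D : Derivation QBar ℂ ℂ) (lam : ℂ →ₗ[ℚ] ℚ) : (LD A d D lam).1 ∈ A.NA := by
  refine A.LA_le_NA ?_
  rw [AbVar.LA_eq]
  exact X0_mem A.basis AbVar.tau_ne D lam

theorem pp_tup {x : Matrix (Fin r) (Fin r) ℂ} {L : Tup A n s} (hL : L.1 ∈ A.NA)
    (hx : ((x, OM.mt L) : R2 r (RI g n s)) ∈ PP lev H) :
    ((exA (x, 2 * (L.2.1 : ℂ)), rm (op L)) : R2 (r + 1) (Fin (2 * g))) ∈ pp A n s lev H := by
  have h1 : rm (op L) = rm L.1 + (L.2.1 : ℂ) • 1 := by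
    unfold op
    rw [rm_add, rm_smul, rm_one]
  refine ⟨x, L.2.1, rm L.1, OM.mt L, ?_, NS_rm hL, ?_, hx⟩
  · rw [h1]
  · have h2 := blk_mt L
    rw [h1] at h2
    convert h2 using 1
    push_cast
    rfl

theorem pp_PtA (h : PtM2 A d lev H) : PtA A (lev' lev) (pp A n s lev H) where
  lp := pp_LP h.grp
  der := fun D lam => by
    obtain ⟨x, hx⟩ := LD_lift h D lam
    have h1 := pp_tup (LD_NA (d := d) D lam) hx
    rw [op_LD] at h1
    exact ⟨_, h1⟩

end Pool.Agent.H621.RM
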