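import Pool.Agent.H621.RM.Uni
import Pool.Agent.R917.OM.Vexp

set_option autoImplicit false
set_option linter.unusedSectionVars false

/-!
# The complex structure of the 1-motive is in the Lie algebra
-/

open Module TensorProduct Matrix Polynomial

noncomputable section

namespace Pool.Agent.H621.RM

open Pool.Agent.Y102 Pool.Agent.W516.DR Pool.Agent.H204R3.GP Pool.Agent.W516.KC
  Pool.Agent.H204R3.SP Pool.Agent.TH119.MX Pool.Agent.R917 Pool.Agent.R917.DT
  Pool.Agent.R917.EC Pool.Agent.H621.BC Pool.Agent.R917.OM Pool.Agent.R917.BX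

open Pool.Agent.H621.RK (R2 PP PP_br PP_comp bd bd_apply comp_sum stab_ss exp_PP)

variable {r K g n s : ℕ}

section gen

variable (A : AbVar g) (d : Dt g n s)

/-- the coordinates of the points -/
def VV : Matrix (RI g n s) (Fin (2 * g)) ℂ := Matrix.of fun r j =>
  Sum.elim (fun j' => if j' = j then 1 else 0)
    (Sum.elim (fun _ => 0) (fun i => ((A.lam.repr (pt d (Sum.inl i)) j : ℝ) : ℂ))) r

/-- the rows of the complex structure -/
def RR : Matrix (Fin (2 * g)) (RI g n s) ℂ := Matrix.of fun j r' => XJ A d (Sum.inl j) r'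

theorem XJ_eq : XJ A d = VV A d * RR A d := by
  ext r r'
  rw [Matrix.mul_apply]
  rcases r with j | l | i
  · have h1 : ∀ j', VV A d (Sum.inl j) j' * RR A d j' r' =
        if j = j' then XJ A d (Sum.inl j) r' else 0 := by
      intro j'
      change (if j = j' then (1 : ℂ) else 0) * XJ A d (Sum.inl j') r' = _
      by_cases hj : j = j'
      · subst hj
        rw [if_pos rfl, if_pos rfl, one_mul]
      · rw [if_neg hj, if_neg hj, zero_mul]
    simp only [h1]
    rw [Finset.sum_ite_eq, if_pos (Finset.mem_univ j)]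
  · have h1 : ∀ j', VV A d (Sum.inr (Sum.inl l)) j' * RR A d j' r' = 0 := fun j' => by
      change (0 : ℂ) * _ = 0
      rw [zero_mul]
    rw [Finset.sum_eq_zero fun j' _ => h1 j']
    rcases r' with c | l' | i' <;> rfl
  · change _ = ∑ j, ((A.lam.repr (pt d (Sum.inl i)) j : ℝ) : ℂ) * XJ A d (Sum.inl j) r'
    rcases r' with c | l' | i'
    · exact J_sum (A := A) _ _
    · exact E_sum (A := A) _ _
    · change (0 : ℂ) = ∑ j, ((A.lam.repr (pt d (Sum.inl i)) j : ℝ) : ℂ) * 0
      simp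

theorem RR_VV : RR A d * VV A d = hm A Complex.I := by
  ext j j'
  rw [Matrix.mul_apply, Fintype.sum_sum_type, Fintype.sum_sum_type]
  have h1 : ∀ c, RR A d j (Sum.inl c) * VV A d (Sum.inl c) j' =
      if c = j' then hm A Complex.I j j' else 0 := by
    intro c
    change XJ A d (Sum.inl j) (Sum.inl c) * (if c = j' then (1 : ℂ) else 0) = _
    by_cases hj : c = j'
    · subst hj
      rw [if_pos rfl, if_pos rfl, mul_one]
      rfl
    · rw [if_neg hj, if_neg hj, mul_zero]
  have h2 : ∀ l, RR A d j (Sum.inr (Sum.inl l)) * VV A d (Sum.inr (Sum.inl l)) j' = 0 :=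
    fun l => by
      change _ * (0 : ℂ) = 0
      rw [mul_zero]
  have h3 : ∀ i, RR A d j (Sum.inr (Sum.inr i)) * VV A d (Sum.inr (Sum.inr i)) j' = 0 :=
    fun i => by
      change (0 : ℂ) * _ = 0
      rw [zero_mul]
  simp only [h1, h2, h3]
  rw [Finset.sum_ite_eq', if_pos (Finset.mem_univ j'), Finset.sum_const_zero,
    Finset.sum_const_zero, add_zero, add_zero]

theorem hm_II : hm A Complex.I * hm A Complex.I = -1 := by
  rw [← hm_mul, Complex.I_mul_I]
  have h1 := hm_real A (-1) 1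
  rw [hm_one, mul_one, Complex.ofReal_neg, Complex.ofReal_one, neg_one_smul] at h1
  exact h1

theorem XJ_cube : XJ A d * XJ A d * XJ A d = -XJ A d := by
  have h1 : XJ A d * XJ A d * XJ A d =
      VV A d * ((RR A d * VV A d) * (RR A d * VV A d)) * RR A d := by
    conv_lhs => rw [XJ_eq]
    simp only [Matrix.mul_assoc]
  rw [h1, RR_VV, hm_II, Matrix.mul_neg, Matrix.mul_one, Matrix.neg_mul, ← XJ_eq]

theorem XJ_nodal : aeval (XJ A d) (Lagrange.nodal ({0, Complex.I, -Complex.I} : Finset ℂ) id) =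
    0 := by
  have h0 : (0 : ℂ) ∉ ({Complex.I, -Complex.I} : Finset ℂ) := by
    simp [Complex.I_ne_zero.symm]
  have h1 : Complex.I ∉ ({-Complex.I} : Finset ℂ) := by
    rw [Finset.mem_singleton]
    intro h
    have h2 := congrArg Complex.im h
    simp at h2
    linarith
  have h2 : Lagrange.nodal ({0, Complex.I, -Complex.I} : Finset ℂ) (id : ℂ → ℂ) = X ^ 3 + X := by
    rw [Lagrange.nodal_insert_eq_nodal h0, Lagrange.nodal_insert_eq_nodal h1]
    unfold Lagrange.nodal
    rw [Finset.prod_singleton]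
    simp only [id, C_0, sub_zero, C_neg, sub_neg_eq_add]
    have h3 : (C Complex.I : ℂ[X]) * C Complex.I = -1 := by
      rw [← C_mul, Complex.I_mul_I, C_neg, C_1]
    linear_combination (-X) * h3
  rw [h2, map_add, map_pow, aeval_X, pow_succ, pow_two, XJ_cube, neg_add_cancel]

/-- matrices in the weight `-2` -/
structure Top (T : Matrix (RI g n s) (RI g n s) ℂ) : Prop where
  rj : ∀ j b, T (Sum.inl j) b = 0
  rl : ∀ l b, T (Sum.inr (Sum.inl l)) b = 0
  cj : ∀ a j, T a (Sum.inl j) = 0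
  ci : ∀ a i, T a (Sum.inr (Sum.inr i)) = 0

variable {A d}

theorem Top.zero : Top (0 : Matrix (RI g n s) (RI g n s) ℂ) :=
  ⟨fun _ _ => rfl, fun _ _ => rfl, fun _ _ => rfl, fun _ _ => rfl⟩

theorem Top.add {T T' : Matrix (RI g n s) (RI g n s) ℂ} (h : Top T) (h' : Top T') :
    Top (T + T') where
  rj := fun j b => by rw [Matrix.add_apply, h.rj, h'.rj, add_zero]
  rl := fun j b => by rw [Matrix.add_apply, h.rl, h'.rl, add_zero]
  cj := fun j b => by rw [Matrix.add_apply, h.cj, h'.cj, add_zero]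
  ci := fun j b => by rw [Matrix.add_apply, h.ci, h'.ci, add_zero]

theorem Top.smul {T : Matrix (RI g n s) (RI g n s) ℂ} (c : ℂ) (h : Top T) : Top (c • T) where
  rj := fun j b => by rw [Matrix.smul_apply, h.rj, smul_zero]
  rl := fun j b => by rw [Matrix.smul_apply, h.rl, smul_zero]
  cj := fun j b => by rw [Matrix.smul_apply, h.cj, smul_zero]
  ci := fun j b => by rw [Matrix.smul_apply, h.ci, smul_zero]

theorem Top.sum {ι : Type*} (S : Finset ι) (T : ι → Matrix (RI g n s) (RI g n s) ℂ)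
    (h : ∀ k, Top (T k)) : Top (∑ k ∈ S, T k) := by
  classical
  induction S using Finset.induction_on with
  | empty =>
    rw [Finset.sum_empty]
    exact Top.zero
  | insert a S ha ih =>
    rw [Finset.sum_insert ha]
    exact (h a).add ih

theorem top_mt (t : Fin n → Fin s → ℚ) : Top (OM.mt ((0, 0, 0, t) : Tup A n s)) where
  rj := fun j b => by
    rcases b with c | l | i
    · change algebraMap ℚ ℂ (((0 : Module.End ℚ A.H1) (eb A j) + (0 : ℚ) • eb A j) c) = 0
      rw [LinearMap.zero_apply, zero_smul, add_zero]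
      exact map_zero _
    · change algebraMap ℚ ℂ (A.om (0 : A.H1) (eb A j)) = 0
      rw [map_zero, LinearMap.zero_apply, map_zero]
    · exact map_zero (algebraMap ℚ ℂ)
  rl := fun l b => by
    rcases b with c | l' | i
    · exact map_zero (algebraMap ℚ ℂ)
    · change algebraMap ℚ ℂ (if l = l' then 2 * 0 else 0) = 0
      rw [mul_zero, ite_self, map_zero]
    · exact map_zero (algebraMap ℚ ℂ)
  cj := fun a j => by
    rcases a with c | l' | i
    · change algebraMap ℚ ℂ (((0 : Module.End ℚ A.H1) (eb A c) + (0 : ℚ) • eb A c) j) = 0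
      rw [LinearMap.zero_apply, zero_smul, add_zero]
      exact map_zero _
    · exact map_zero (algebraMap ℚ ℂ)
    · exact map_zero (algebraMap ℚ ℂ)
  ci := fun a i => by
    rcases a with c | l' | i'
    · exact map_zero (algebraMap ℚ ℂ)
    · exact map_zero (algebraMap ℚ ℂ)
    · exact map_zero (algebraMap ℚ ℂ)

theorem XJ_top {T : Matrix (RI g n s) (RI g n s) ℂ} (h : Top T) : XJ A d * T = 0 := by
  ext a b
  rw [mul_RI, Matrix.zero_apply, Finset.sum_eq_zero fun j _ => by rw [h.rj, mul_zero],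
    Finset.sum_eq_zero fun l _ => by rw [h.rl, mul_zero],
    Finset.sum_eq_zero fun i _ => ?_, add_zero, add_zero]
  have h1 : XJ A d a (Sum.inr (Sum.inr i)) = 0 := by
    rcases a with c | l | i' <;> rfl
  rw [h1, zero_mul]

theorem top_XJ {T : Matrix (RI g n s) (RI g n s) ℂ} (h : Top T) : T * XJ A d = 0 := by
  ext a b
  rw [mul_RI, Matrix.zero_apply, Finset.sum_eq_zero fun j _ => by rw [h.cj, zero_mul],
    Finset.sum_eq_zero fun l _ => ?_,
    Finset.sum_eq_zero fun i _ => by rw [h.ci, zero_mul], add_zero, add_zero]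
  have h1 : XJ A d (Sum.inr (Sum.inl l)) b = 0 := by
    rcases b with c | l | i' <;> rfl
  rw [h1, mul_zero]

theorem top_sq {T : Matrix (RI g n s) (RI g n s) ℂ} (h : Top T) : T * T = 0 := by
  ext a b
  rw [mul_RI, Matrix.zero_apply, Finset.sum_eq_zero fun j _ => by rw [h.cj, zero_mul],
    Finset.sum_eq_zero fun l _ => by rw [h.rl, mul_zero],
    Finset.sum_eq_zero fun i _ => by rw [h.ci, zero_mul], add_zero, add_zero]

end gen

variable {lev : Fin r → Fin K} {H : Set (Matrix (Fin r ⊕ RI g n s) (Fin r ⊕ RI g n s) ℂ)}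

/-- The semisimple part. -/
theorem XJ_of_top {A : AbVar g} {d : Dt g n s} {T : Matrix (RI g n s) (RI g n s) ℂ} (hT : Top T)
    (h : ((0, XJ A d + T) : R2 r (RI g n s)) ∈ PP lev H) :
    ((0, XJ A d) : R2 r (RI g n s)) ∈ PP lev H := by
  refine ⟨fun i j _ => rfl, fun k => ?_⟩
  have h1 : bd ((0, XJ A d + T) : R2 r (RI g n s)) = bd ((0, XJ A d) : R2 r (RI g n s)) +
      bd ((0, T) : R2 r (RI g n s)) := by
    rw [← map_add, Prod.mk_add_mk, add_zero]
  have h2 := h.2 k
  rw [h1] at h2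
  refine stab_ss ?_ ⟨2, ?_⟩ (s := {0, Complex.I, -Complex.I}) ?_ h2
  · rw [← map_mul, ← map_mul, Prod.mk_mul_mk, Prod.mk_mul_mk, top_XJ hT, XJ_top hT]
  · rw [pow_two, ← map_mul, Prod.mk_mul_mk, top_sq hT, zero_mul]
    exact map_zero bd
  · rw [Polynomial.aeval_algHom_apply, Pool.Agent.H621.RK.aeval_prod, XJ_nodal]
    have h3 : aeval (0 : Matrix (Fin r) (Fin r) ℂ)
        (Lagrange.nodal ({0, Complex.I, -Complex.I} : Finset ℂ) id) = 0 := by
      have h4 : (X : ℂ[X]) ∣ Lagrange.nodal ({0, Complex.I, -Complex.I} : Finset ℂ) id := by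
        rw [X_dvd_iff, coeff_zero_eq_eval_zero]
        exact Lagrange.eval_nodal_at_node (v := (id : ℂ → ℂ)) (i := (0 : ℂ)) (by simp)
      obtain ⟨P, hP⟩ := h4
      rw [hP, map_mul, aeval_X, zero_mul]
    rw [h3]
    exact map_zero bd

/-- **The complex structure is in the Lie algebra.** -/
theorem XJ_mem {A : AbVarG g} {d : Dt g n s} (h : PtM2 A.toAbVar d lev H)
    {K₁ : IntermediateField ℚ ℂ}
    [FiniteDimensional ℚ K₁] (hu : ∀ p (m : ℕ), IsRat A.toAbVar K₁ (m • pt d p))
    (hJ : ∀ t : ℝ →ₗ[ℚ] ℚ, A.cmpE t AbVar.JJ ∈ nn A.toAbVar (pp A.toAbVar n s lev H)) :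
    ((0, XJ A.toAbVar d) : R2 r (RI g n s)) ∈ PP lev H := by
  classical
  choose t ht using tJ_mod h hu hJ
  obtain ⟨S, hS⟩ := comp_sum (XJ A.toAbVar d)
  let b := Basis.ofVectorSpace ℚ ℂ
  let T : Matrix (RI g n s) (RI g n s) ℂ :=
    ∑ k ∈ S, (b k) • OM.mt ((0, 0, 0, t (b.coord k)) : Tup A.toAbVar n s)
  have hT : Top T := Top.sum S _ fun k => (top_mt _).smul _
  refine XJ_of_top hT ?_
  have h1 : ((0, XJ A.toAbVar d + T) : R2 r (RI g n s)) =
      ∑ k ∈ S, (b k) • ((0, OM.mt (tJ A.toAbVar d (b.coord k) +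
        ((0, 0, 0, t (b.coord k)) : Tup A.toAbVar n s))) : R2 r (RI g n s)) := by
    refine Prod.ext ?_ ?_
    · rw [Prod.fst_sum]
      refine (Finset.sum_eq_zero fun k _ => ?_).symm
      rw [Prod.smul_fst, smul_zero]
    · rw [Prod.snd_sum]
      change XJ A.toAbVar d + T = ∑ k ∈ S, (b k) • OM.mt _
      simp only [mt_add, smul_add, Finset.sum_add_distrib]
      congr 1
      conv_lhs => rw [hS]
      refine Finset.sum_congr rfl fun k _ => ?_
      rw [mt_tJ]
  rw [h1]
  exact Submodule.sum_mem _ fun k _ => Submodule.smul_mem _ _ (ht (b.coord k)).2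

end Pool.Agent.H621.RM
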