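import Pool.Agent.H621.RM.Pp
import Pool.Agent.R917.DT.Stb

set_option autoImplicit false
set_option linter.unusedSectionVars false

/-!
# The Hodge structure of the 1-motive modulo the weight `-2`
-/

open Module TensorProduct Matrix Polynomial

noncomputable section

namespace Pool.Agent.H621.RM

open Pool.Agent.Y102 Pool.Agent.W516.DR Pool.Agent.H204R3.GP Pool.Agent.W516.KC
  Pool.Agent.H204R3.SP Pool.Agent.TH119.MX Pool.Agent.R917 Pool.Agent.R917.DT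
  Pool.Agent.R917.EC Pool.Agent.H621.BC Pool.Agent.R917.OM Pool.Agent.R917.BX

open Pool.Agent.H621.RK (R2 PP PP_br PP_comp)

variable {r K g n s : ℕ}

section gen

variable {A : AbVar g} {lev : Fin r → Fin K}
  {H : Set (Matrix (Fin r ⊕ RI g n s) (Fin r ⊕ RI g n s) ℂ)} {d : Dt g n s}

/-- the tuples with a lift -/
def GG (A : AbVar g) (n s : ℕ) (lev : Fin r → Fin K)
    (H : Set (Matrix (Fin r ⊕ RI g n s) (Fin r ⊕ RI g n s) ℂ)) : Submodule ℚ (Tup A n s) where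
  carrier := {L | L.1 ∈ A.NA ∧ ∃ x : Matrix (Fin r) (Fin r) ℂ,
    ((x, OM.mt L) : R2 r (RI g n s)) ∈ PP lev H}
  zero_mem' := ⟨A.NA.zero_mem, 0, by
    rw [mt_zero]
    exact (PP lev H).zero_mem⟩
  add_mem' := by
    rintro L L' ⟨h1, x, h2⟩ ⟨h1', x', h2'⟩
    refine ⟨A.NA.add_mem h1 h1', x + x', ?_⟩
    rw [mt_add]
    exact (PP lev H).add_mem h2 h2'
  smul_mem' := by
    rintro c L ⟨h1, x, h2⟩
    refine ⟨A.NA.smul_mem c h1, (c : ℂ) • x, ?_⟩
    rw [mt_smul]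
    exact (PP lev H).smul_mem (c : ℂ) h2

/-- the tuples `L` such that `(0, L)` is in the Lie algebra -/
def NN (A : AbVar g) (n s : ℕ) (lev : Fin r → Fin K)
    (H : Set (Matrix (Fin r ⊕ RI g n s) (Fin r ⊕ RI g n s) ℂ)) : Submodule ℚ (Tup A n s) where
  carrier := {L | L.1 ∈ A.NA ∧ ((0, OM.mt L) : R2 r (RI g n s)) ∈ PP lev H}
  zero_mem' := ⟨A.NA.zero_mem, by
    rw [mt_zero]
    exact (PP lev H).zero_mem⟩
  add_mem' := by
    rintro L L' ⟨h1, h2⟩ ⟨h1', h2'⟩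
    refine ⟨A.NA.add_mem h1 h1', ?_⟩
    have h3 := (PP lev H).add_mem h2 h2'
    rw [mt_add]
    rwa [Prod.mk_add_mk, add_zero] at h3
  smul_mem' := by
    rintro c L ⟨h1, h2⟩
    refine ⟨A.NA.smul_mem c h1, ?_⟩
    have h3 := (PP lev H).smul_mem (c : ℂ) h2
    rw [mt_smul]
    rwa [Prod.smul_mk, smul_zero] at h3

theorem NN_le : NN A n s lev H ≤ GG A n s lev H := fun _ hL => ⟨hL.1, 0, hL.2⟩

theorem GG_Lg (h : PtM2 A d lev H) : Lg (GG A n s lev H) d where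
  na := fun L hL => hL.1
  br := by
    rintro L ⟨h1, x, h2⟩ L' ⟨h1', x', h2'⟩
    refine ⟨A.NA_bracket h1 h1', x' * x - x * x', ?_⟩
    rw [mt_br (A.NA_skew h1) (A.NA_skew h1')]
    exact PP_br h2' h2
  per := fun D lam => ⟨LD_NA D lam, LD_lift h D lam⟩

theorem NN_br {L L' : Tup A n s} (hL : L ∈ GG A n s lev H) (hL' : L' ∈ NN A n s lev H) :
    OM.br L L' ∈ NN A n s lev H := by
  obtain ⟨h1, x, h2⟩ := hL
  refine ⟨A.NA_bracket h1 hL'.1, ?_⟩
  rw [mt_br (A.NA_skew h1) (A.NA_skew hL'.1)]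
  have h3 := PP_br hL'.2 h2
  convert h3 using 1
  refine Prod.ext ?_ rfl
  change 0 = 0 * x - x * 0
  rw [zero_mul, mul_zero, sub_zero]

theorem rm_lamF {lam : ℂ →ₗ[ℚ] ℚ} (hlam : lam 1 = 1) (Y : Module.End ℚ A.H1) :
    rm Y = (rm Y).map (lamF lam) := by
  ext i j
  rw [Matrix.map_apply, lamF_apply]
  change ((Y (eb A i) j : ℚ) : ℂ) = ((lam ((Y (eb A i) j : ℚ) : ℂ) : ℚ) : ℂ)
  rw [lam_rat hlam]

/-- The lifts of the elements of the ideal of the pure part. -/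
theorem lift_nn (hH : AlgGrp QQ H) {Y : Module.End ℚ A.H1} (hY : Y ∈ nn A (pp A n s lev H)) :
    ∃ L ∈ NN A n s lev H, L.1 = Y ∧ L.2.1 = 0 := by
  obtain ⟨hN, x, c, α, Y', h0, h1, h2, h3⟩ := hY
  obtain ⟨e1, e2⟩ := Prod.ext_iff.1 h0
  change 0 = exA (x, 2 * c) at e1
  change rm Y = α + c • 1 at e2
  have e3 := exA_inj (e1.symm.trans (map_zero exA).symm)
  obtain ⟨e4, e5⟩ := Prod.ext_iff.1 e3
  change x = 0 at e4
  change 2 * c = 0 at e5
  have hc : c = 0 := (mul_eq_zero.1 e5).resolve_left two_ne_zero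
  subst hc
  subst e4
  obtain ⟨lam, hlam⟩ := exists_lam1
  have hα : rm Y = α.map (lamF lam) := by
    have e6 : α = rm Y := by
      rw [e2, zero_smul, add_zero]
    rw [e6]
    exact rm_lamF hlam Y
  obtain ⟨L, f1, f2, f3⟩ := exists_tup' h2 hα
  refine ⟨L, ⟨by rw [f1]; exact hN, ?_⟩, f1, by rw [f2, map_zero]⟩
  have h4 := PP_comp hH h3 lam
  rw [f3]
  convert h4 using 1
  refine Prod.ext ?_ rfl
  ext i j
  exact (map_zero (lamF lam)).symm

/-- **The unipotent part in weight `-1`.** -/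
theorem uu_le (h : PtM2 A d lev H)
    (hJ : ∀ t : ℝ →ₗ[ℚ] ℚ, A.cmpE t AbVar.JJ ∈ nn A (pp A n s lev H)) :
    uu (GG A n s lev H) ≤ uu (NN A n s lev H) := by
  obtain ⟨π, hπ2, hπ0, hπc⟩ := exists_proj_aux (GG_Lg h).full.semi (uu (NN A n s lev H)) (by
    rintro _ ⟨L, hL, rfl⟩ z hz
    obtain ⟨t, ht⟩ := hz
    have h1 : (fun p => op L (z p)) ∈ uu (NN A n s lev H) := by
      have h2 := NN_br hL ht
      refine ⟨(OM.br L ((0, 0, z, t) : Tup A n s)).2.2.2, ?_⟩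
      convert h2 using 1
      refine Prod.ext ?_ (Prod.ext rfl (Prod.ext ?_ rfl))
      · simp [OM.br]
      · funext p
        simp [OM.br, op_apply]
    have h2 := (uu (NN A n s lev H)).sub_mem h1
      ((uu (NN A n s lev H)).smul_mem L.2.1 ⟨t, ht⟩)
    convert h2 using 1
    funext p
    change L.1 (z p) = op L (z p) - L.2.1 • z p
    rw [op_apply, add_sub_cancel_right])
  intro z hz
  obtain ⟨t', ht'⟩ := hz
  rw [← hπ0]
  have key : ∀ (t : ℝ →ₗ[ℚ] ℚ) p, A.cmpE t AbVar.JJ (π z p) = 0 := by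
    intro t p
    obtain ⟨L, hL, e1, e2⟩ := lift_nn h.grp (hJ t)
    have h1 : (fun p => L.1 (z p)) ∈ uu (NN A n s lev H) := by
      have h2 := NN_br ht' hL
      have h3 : (fun p => -(L.1 (z p))) ∈ uu (NN A n s lev H) := by
        refine ⟨(OM.br ((0, 0, z, t') : Tup A n s) L).2.2.2, ?_⟩
        convert h2 using 1
        refine Prod.ext ?_ (Prod.ext rfl (Prod.ext ?_ rfl))
        · simp [OM.br]
        · funext p
          simp [OM.br, op_apply, e2]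
      have h4 := (uu (NN A n s lev H)).neg_mem h3
      convert h4 using 1
      funext p
      exact (neg_neg _).symm
    rw [e1] at h1
    have h2 := hπc _ ⟨L, NN_le hL, e1⟩ z
    rw [(hπ0 _).2 h1] at h2
    exact (congrFun h2 p).symm
  funext p
  have h1 : A.per (π z p) = 0 := by
    have h2 : AbVar.JJ (A.per (π z p)) = 0 := A.cmp_sep fun t => by
      rw [← AbVar.cmpE_apply]
      exact key t p
    rw [AbVar.JJ_apply] at h2
    exact (smul_eq_zero.1 h2).resolve_left Complex.I_ne_zero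
  have h2 : A.per (π z p) = A.per 0 := by rw [h1, map_zero]
  exact A.per_inj h2

end gen

variable {A : AbVarG g} {lev : Fin r → Fin K}
  {H : Set (Matrix (Fin r ⊕ RI g n s) (Fin r ⊕ RI g n s) ℂ)} {d : Dt g n s}

/-- The rational components of the complex structure, modulo the weight `-2`. -/
theorem tJ_mod (h : PtM2 A.toAbVar d lev H) {K₁ : IntermediateField ℚ ℂ}
    [FiniteDimensional ℚ K₁] (hu : ∀ p (m : ℕ), IsRat A.toAbVar K₁ (m • pt d p))
    (hJ : ∀ t : ℝ →ₗ[ℚ] ℚ, A.cmpE t AbVar.JJ ∈ nn A.toAbVar (pp A.toAbVar n s lev H))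
    (lam : ℂ →ₗ[ℚ] ℚ) :
    ∃ t : Fin n → Fin s → ℚ,
      tJ A.toAbVar d lam + ((0, 0, 0, t) : Tup A.toAbVar n s) ∈ NN A.toAbVar n s lev H := by
  obtain ⟨u⟩ := main2 (GG_Lg h) hu
  obtain ⟨L, hL, e1, e2⟩ := lift_nn h.grp (hJ (fr lam))
  have h1 := u.tJ_mem' (GG_Lg h) lam ⟨L, NN_le hL, e1, e2⟩
  have h2 := (GG A.toAbVar n s lev H).sub_mem h1 (NN_le hL)
  have h3 : (tJ A.toAbVar d lam - L).2.2.1 ∈ uu (GG A.toAbVar n s lev H) := by
    refine ⟨(tJ A.toAbVar d lam - L).2.2.2, ?_⟩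
    convert h2 using 1
    refine Prod.ext ?_ (Prod.ext ?_ (Prod.ext rfl rfl))
    · change 0 = A.cmpE (fr lam) AbVar.JJ - L.1
      rw [e1, sub_self]
    · change 0 = 0 - L.2.1
      rw [e2, sub_zero]
  obtain ⟨t, ht⟩ := uu_le h hJ h3
  have h4 := (NN A.toAbVar n s lev H).add_mem hL ht
  refine ⟨L.2.2.2 + t - (tJ A.toAbVar d lam).2.2.2, ?_⟩
  convert h4 using 1
  refine Prod.ext ?_ (Prod.ext ?_ (Prod.ext ?_ ?_))
  · change A.cmpE (fr lam) AbVar.JJ + 0 = L.1 + 0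
    rw [e1]
  · change (0 : ℚ) + 0 = L.2.1 + 0
    rw [e2]
  · change (tJ A.toAbVar d lam).2.2.1 + 0 = L.2.2.1 + ((tJ A.toAbVar d lam).2.2.1 - L.2.2.1)
    rw [add_zero, add_sub_cancel]
  · change (tJ A.toAbVar d lam).2.2.2 + (L.2.2.2 + t - (tJ A.toAbVar d lam).2.2.2) =
      L.2.2.2 + t
    abel

end Pool.Agent.H621.RM
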